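import Pool.Agent.H38.HM.Moll

/-! Module DENS: test functions are dense in `H¹(ℝ³)`. -/

namespace Pool.Agent.H38.HM

open MeasureTheory Set Filter Topology Real
open scoped ContDiff ENNReal Convolution
open Pool.Agent.H99.HM

/-- integral of the square of the norm in terms of `eLpNorm` -/
theorem integral_sq_eq {f : E3 → ℂ} (hf : MemLp f 2 volume) :
    ∫ x, ‖f x‖ ^ 2 = (eLpNorm f 2 volume).toReal ^ 2 := by
  rw [← ENNReal.toReal_pow, eL2]
  rw [integral_eq_lintegral_of_nonneg_ae (f := fun x => ‖f x‖ ^ 2)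
    (Filter.Eventually.of_forall fun x => by positivity) (hf.1.norm.pow 2)]
  congr 1
  apply lintegral_congr
  intro x
  rw [← ofReal_norm, ENNReal.ofReal_pow (norm_nonneg _)]

theorem tendsto_integral_sq {f : ℕ → E3 → ℂ} (hf : ∀ n, MemLp (f n) 2 volume)
    (h : Tendsto (fun n => eLpNorm (f n) 2 volume) atTop (𝓝 0)) :
    Tendsto (fun n => ∫ x, ‖f n x‖ ^ 2) atTop (𝓝 0) := by
  have h1 : Tendsto (fun n => (eLpNorm (f n) 2 volume).toReal ^ 2) atTop (𝓝 (0 ^ 2)) := by
    apply Tendsto.pow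
    have := (ENNReal.tendsto_toReal ENNReal.zero_ne_top).comp h
    simpa [Function.comp_def] using this
  rw [zero_pow two_ne_zero] at h1
  exact h1.congr (fun n => (integral_sq_eq (hf n)).symm)

/-- the cut-off functions -/
noncomputable def cb : ContDiffBump (0 : E3) := ⟨1, 2, one_pos, one_lt_two⟩

noncomputable def cut (n : ℕ) (x : E3) : ℝ := cb ((1 / ((n : ℝ) + 1)) • x)

theorem cut_smooth (n : ℕ) : ContDiff ℝ ∞ (cut n) :=
  cb.contDiff.comp (contDiff_const_smul _)

theorem cut_nonneg (n : ℕ) (x : E3) : 0 ≤ cut n x := cb.nonneg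

theorem cut_le_one (n : ℕ) (x : E3) : cut n x ≤ 1 := cb.le_one

theorem cut_cs (n : ℕ) : HasCompactSupport (cut n) := by
  have hn : (1 / ((n : ℝ) + 1)) ≠ 0 := by positivity
  exact cb.hasCompactSupport.comp_homeomorph (Homeomorph.smulOfNeZero _ hn)

theorem cut_eq_one {n : ℕ} {x : E3} (hx : ‖x‖ ≤ (n : ℝ) + 1) : cut n x = 1 := by
  apply cb.one_of_mem_closedBall
  rw [mem_closedBall_zero_iff, norm_smul, Real.norm_eq_abs, abs_of_pos (by positivity)]
  change 1 / ((n : ℝ) + 1) * ‖x‖ ≤ 1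
  rw [one_div, inv_mul_le_iff₀ (by positivity)]
  linarith

theorem cut_tendsto (x : E3) : Tendsto (fun n => cut n x) atTop (𝓝 1) := by
  apply tendsto_const_nhds.congr'
  obtain ⟨N, hN⟩ := exists_nat_ge ‖x‖
  filter_upwards [eventually_ge_atTop N] with n hn
  rw [cut_eq_one]
  have : (N : ℝ) ≤ n := by exact_mod_cast hn
  linarith

theorem cut_fderiv : ∃ C : ℝ, 0 ≤ C ∧ ∀ (n : ℕ) (i : Fin 3) (x : E3),
    |pd i (cut n) x| ≤ C / ((n : ℝ) + 1) := by
  have h1 : Continuous (fderiv ℝ (cb : E3 → ℝ)) := (cb.contDiff (n := 1)).continuous_fderiv (by norm_num)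
  have h2 : HasCompactSupport (fderiv ℝ (cb : E3 → ℝ)) := cb.hasCompactSupport.fderiv (𝕜 := ℝ)
  obtain ⟨C, hC⟩ := h1.bounded_above_of_compact_support h2
  refine ⟨C, (norm_nonneg _).trans (hC 0), fun n i x => ?_⟩
  have h3 : HasFDerivAt (cut n) ((fderiv ℝ (cb : E3 → ℝ) ((1 / ((n : ℝ) + 1)) • x)).comp
      ((1 / ((n : ℝ) + 1)) • ContinuousLinearMap.id ℝ E3)) x := by
    apply HasFDerivAt.comp
    · exact ((cb.contDiff (n := 1)).differentiable (by norm_num)).differentiableAt.hasFDerivAt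
    · exact ((1 / ((n : ℝ) + 1)) • ContinuousLinearMap.id ℝ E3).hasFDerivAt
  unfold pd
  rw [h3.fderiv, ContinuousLinearMap.comp_apply, smul_apply,
    ContinuousLinearMap.id_apply, map_smul, smul_eq_mul, abs_mul, abs_of_pos (by positivity)]
  have h4 : |fderiv ℝ (cb : E3 → ℝ) ((1 / ((n : ℝ) + 1)) • x) (EuclideanSpace.single i 1)| ≤ C := by
    have := (fderiv ℝ (cb : E3 → ℝ) ((1 / ((n : ℝ) + 1)) • x)).le_opNorm
      (EuclideanSpace.single i (1 : ℝ))
    rw [Real.norm_eq_abs] at this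
    refine this.trans ?_
    simp only [EuclideanSpace.norm_single, norm_one, mul_one]
    exact hC _
  rw [div_eq_mul_one_div C, mul_comm C]
  exact mul_le_mul_of_nonneg_left h4 (by positivity)

/-- first term: the cut-off converges in `L²` -/
theorem cut_L2 {f : E3 → ℂ} (hf : MemLp f 2 volume) :
    Tendsto (fun n => ∫ x, ‖((1 - cut n x : ℝ) : ℂ) * f x‖ ^ 2) atTop (𝓝 0) := by
  have h0 : (0 : ℝ) = ∫ x : E3, (0 : ℝ) := by simp
  rw [h0]
  have hi : Integrable (fun x => ‖f x‖ ^ 2) volume := by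
    have := hf.integrable_norm_pow (p := 2) two_ne_zero
    simpa using this
  apply tendsto_integral_of_dominated_convergence (fun x => ‖f x‖ ^ 2)
  · intro n
    have h1 : Continuous (fun x => ((1 - cut n x : ℝ) : ℂ)) :=
      Complex.continuous_ofReal.comp (continuous_const.sub (cut_smooth n).continuous)
    exact (h1.aestronglyMeasurable.mul hf.1).norm.pow 2
  · exact hi
  · intro n
    refine Filter.Eventually.of_forall (fun x => ?_)
    rw [Real.norm_eq_abs, abs_of_nonneg (by positivity), norm_mul]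
    have h1 : ‖((1 - cut n x : ℝ) : ℂ)‖ ≤ 1 := by
      rw [Complex.norm_real, Real.norm_eq_abs, abs_le]
      constructor <;> linarith [cut_nonneg n x, cut_le_one n x]
    apply pow_le_pow_left₀ (by positivity)
    calc ‖((1 - cut n x : ℝ) : ℂ)‖ * ‖f x‖ ≤ 1 * ‖f x‖ :=
          mul_le_mul_of_nonneg_right h1 (norm_nonneg _)
      _ = ‖f x‖ := one_mul _
  · refine Filter.Eventually.of_forall (fun x => ?_)
    have h1 : Tendsto (fun n => ((1 - cut n x : ℝ) : ℂ)) atTop (𝓝 ((1 - 1 : ℝ) : ℂ)) :=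
      (Complex.continuous_ofReal.tendsto _).comp ((cut_tendsto x).const_sub 1)
    have h2 := ((h1.mul_const (f x)).norm).pow 2
    simpa using h2

/-- derivative of the mollification of an `H¹` function -/
theorem pd_mol {v : E3 → ℂ} {G : Fin 3 → E3 → ℂ} (h : IsH1 v G) (m : ℕ) (i : Fin 3) (x : E3) :
    fderiv ℝ (mol (rh m) v) x (EuclideanSpace.single i 1) = mol (rh m) (G i) x := by
  rw [fderiv_mol (rh_smooth m) (rh_cpt m) (h.memLp.locallyIntegrable (by norm_num)), mol_eq]
  set φ : E3 → ℝ := fun t => rh m (x - t) with hφ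
  have hs : ContDiff ℝ ∞ φ := (rh_smooth m).comp (contDiff_const.sub contDiff_id)
  have hc : HasCompactSupport φ := (rh_cpt m).comp_homeomorph (Homeomorph.subLeft x)
  have hpd : ∀ t, pd i φ t = - fderiv ℝ (rh m) (x - t) (EuclideanSpace.single i 1) := by
    intro t
    unfold pd
    have h3 : HasFDerivAt φ ((fderiv ℝ (rh m) (x - t)).comp
        (-ContinuousLinearMap.id ℝ E3)) t := by
      apply HasFDerivAt.comp
      · exact ((rh_smooth m).differentiable (by simp)).differentiableAt.hasFDerivAt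
      · exact (hasFDerivAt_id t).const_sub x
    rw [h3.fderiv]
    simp
  have hw := h.weak i φ ⟨hs, hc⟩
  have e1 : ∫ t, (fderiv ℝ (rh m) (x - t)) (EuclideanSpace.single i 1) • v t =
      - ∫ t, v t * (pd i φ t : ℂ) := by
    rw [← integral_neg]
    apply integral_congr_ae
    refine Filter.Eventually.of_forall (fun t => ?_)
    simp only [hpd, Complex.real_smul]
    push_cast
    ring
  rw [e1, hw, neg_neg]
  apply integral_congr_ae
  refine Filter.Eventually.of_forall (fun t => ?_)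
  simp only [hφ, Complex.real_smul]
  ring

/-- the approximants -/
noncomputable def Wn (v : E3 → ℂ) (n : ℕ) (x : E3) : ℂ := cut n x • mol (rh n) v x

theorem Wn_smooth {v : E3 → ℂ} (hv : MemLp v 2 volume) (n : ℕ) : ContDiff ℝ ∞ (Wn v n) :=
  (cut_smooth n).smul (contDiff_mol (rh_smooth n) (rh_cpt n) (hv.locallyIntegrable (by norm_num)))

theorem Wn_cs (v : E3 → ℂ) (n : ℕ) : HasCompactSupport (Wn v n) :=
  (cut_cs n).smul_right

theorem Wn_fderiv {v : E3 → ℂ} {G : Fin 3 → E3 → ℂ} (h : IsH1 v G) (n : ℕ) (i : Fin 3) (x : E3) :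
    fderiv ℝ (Wn v n) x (EuclideanSpace.single i 1) =
      cut n x • mol (rh n) (G i) x + pd i (cut n) x • mol (rh n) v x := by
  have h1 : HasFDerivAt (cut n) (fderiv ℝ (cut n) x) x :=
    ((cut_smooth n).differentiable (by simp)).differentiableAt.hasFDerivAt
  have h2 : HasFDerivAt (mol (rh n) v) (fderiv ℝ (mol (rh n) v) x) x :=
    ((contDiff_mol (rh_smooth n) (rh_cpt n) (h.memLp.locallyIntegrable
      (by norm_num))).differentiable (by simp)).differentiableAt.hasFDerivAt
  have h3 : HasFDerivAt (Wn v n) _ x := h1.smul h2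
  rw [h3.fderiv, ← pd_mol h]
  simp [pd]

theorem sq3 (a b c : ℝ) : (a + b + c) ^ 2 ≤ 3 * (a ^ 2 + b ^ 2 + c ^ 2) := by
  nlinarith [sq_nonneg (a - b), sq_nonneg (b - c), sq_nonneg (a - c)]

theorem dens : T_dens := by
  intro v G h
  obtain ⟨C, hC0, hC⟩ := cut_fderiv
  have hvm : ∀ n, MemLp (mol (rh n) v) 2 volume := memLp_mol h.memLp
  have hGm : ∀ i n, MemLp (mol (rh n) (G i)) 2 volume := fun i => memLp_mol (h.memLp_grad i)
  have hnorm : ∀ n, ∫ x, ‖mol (rh n) v x‖ ^ 2 ≤ ∫ x, ‖v x‖ ^ 2 := by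
    intro n
    rw [integral_sq_eq (hvm n), integral_sq_eq h.memLp]
    apply pow_le_pow_left₀ ENNReal.toReal_nonneg
    apply ENNReal.toReal_mono h.memLp.2.ne
    exact eL2_mol_le (rh_smooth n).continuous ((bmp n).integrable_normed)
      (bmp n).nonneg_normed (bmp n).integral_normed h.memLp.1
  have hsqi : ∀ {f : E3 → ℂ}, MemLp f 2 volume → Integrable (fun x => ‖f x‖ ^ 2) volume := by
    intro f hf
    have := hf.integrable_norm_pow (p := 2) two_ne_zero
    simpa using this
  have hcutm : ∀ n (f : E3 → ℂ), MemLp f 2 volume →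
      MemLp (fun x => ((1 - cut n x : ℝ) : ℂ) * f x) 2 volume := by
    intro n f hf
    refine hf.of_le ?_ ?_
    · have h1 : Continuous (fun x => ((1 - cut n x : ℝ) : ℂ)) :=
        Complex.continuous_ofReal.comp (continuous_const.sub (cut_smooth n).continuous)
      exact h1.aestronglyMeasurable.mul hf.1
    · refine Filter.Eventually.of_forall (fun x => ?_)
      rw [norm_mul]
      have h1 : ‖((1 - cut n x : ℝ) : ℂ)‖ ≤ 1 := by
        rw [Complex.norm_real, Real.norm_eq_abs, abs_le]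
        constructor <;> linarith [cut_nonneg n x, cut_le_one n x]
      calc ‖((1 - cut n x : ℝ) : ℂ)‖ * ‖f x‖ ≤ 1 * ‖f x‖ :=
            mul_le_mul_of_nonneg_right h1 (norm_nonneg _)
        _ = ‖f x‖ := one_mul _
  -- general estimate
  have key : ∀ (f : E3 → ℂ) (hf : MemLp f 2 volume) (n : ℕ) (g : E3 → ℂ),
      (∀ x, ‖f x - g x‖ ≤ ‖((1 - cut n x : ℝ) : ℂ) * f x‖ + ‖mol (rh n) f x - f x‖ +
        C / ((n : ℝ) + 1) * ‖mol (rh n) v x‖) →
      ∫ x, ‖f x - g x‖ ^ 2 ≤ 3 * ((∫ x, ‖((1 - cut n x : ℝ) : ℂ) * f x‖ ^ 2) +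
        (∫ x, ‖mol (rh n) f x - f x‖ ^ 2) + (C / ((n : ℝ) + 1)) ^ 2 * ∫ x, ‖v x‖ ^ 2) := by
    intro f hf n g hg
    have i1 := hsqi (hcutm n f hf)
    have i2 : Integrable (fun x => ‖mol (rh n) f x - f x‖ ^ 2) volume :=
      hsqi ((memLp_mol hf n).sub hf)
    have i3 := (hsqi (hvm n)).const_mul ((C / ((n : ℝ) + 1)) ^ 2)
    calc ∫ x, ‖f x - g x‖ ^ 2 ≤ ∫ x, 3 * ((‖((1 - cut n x : ℝ) : ℂ) * f x‖ ^ 2 +
          ‖mol (rh n) f x - f x‖ ^ 2) + (C / ((n : ℝ) + 1)) ^ 2 * ‖mol (rh n) v x‖ ^ 2) := by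
          apply integral_mono_of_nonneg (Filter.Eventually.of_forall fun x => by positivity)
            (((i1.add i2).add i3).const_mul 3)
          refine Filter.Eventually.of_forall (fun x => ?_)
          have h1 := pow_le_pow_left₀ (norm_nonneg _) (hg x) 2
          have h2 := sq3 ‖((1 - cut n x : ℝ) : ℂ) * f x‖ ‖mol (rh n) f x - f x‖
            (C / ((n : ℝ) + 1) * ‖mol (rh n) v x‖)
          rw [mul_pow] at h2
          exact h1.trans h2
      _ = 3 * ((∫ x, ‖((1 - cut n x : ℝ) : ℂ) * f x‖ ^ 2) +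
        (∫ x, ‖mol (rh n) f x - f x‖ ^ 2) + (C / ((n : ℝ) + 1)) ^ 2 * ∫ x, ‖mol (rh n) v x‖ ^ 2) := by
          have i12 : Integrable (fun x => ‖((1 - cut n x : ℝ) : ℂ) * f x‖ ^ 2 +
            ‖mol (rh n) f x - f x‖ ^ 2) volume := i1.add i2
          rw [integral_const_mul, integral_add i12 i3, integral_add i1 i2,
            integral_const_mul]
      _ ≤ _ := by
          have := mul_le_mul_of_nonneg_left (hnorm n) (sq_nonneg (C / ((n : ℝ) + 1)))
          linarith
  have hlim : ∀ (f : E3 → ℂ) (hf : MemLp f 2 volume),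
      Tendsto (fun n : ℕ => 3 * ((∫ x, ‖((1 - cut n x : ℝ) : ℂ) * f x‖ ^ 2) +
        (∫ x, ‖mol (rh n) f x - f x‖ ^ 2) + (C / ((n : ℝ) + 1)) ^ 2 * ∫ x, ‖v x‖ ^ 2))
        atTop (𝓝 0) := by
    intro f hf
    have l1 := cut_L2 hf
    have l2 : Tendsto (fun n => ∫ x, ‖mol (rh n) f x - f x‖ ^ 2) atTop (𝓝 0) :=
      tendsto_integral_sq (fun n => (memLp_mol hf n).sub hf) (mol_tendsto hf)
    have l3 : Tendsto (fun n : ℕ => (C / ((n : ℝ) + 1)) ^ 2 * ∫ x, ‖v x‖ ^ 2) atTop
        (𝓝 ((C * 0) ^ 2 * ∫ x, ‖v x‖ ^ 2)) := by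
      apply Tendsto.mul_const
      apply Tendsto.pow
      have := (tendsto_one_div_add_atTop_nhds_zero_nat (𝕜 := ℝ)).const_mul C
      apply this.congr
      intro n; ring
    have := ((l1.add l2).add l3).const_mul 3
    simpa using this
  refine ⟨fun n x => (Wn v n x).re, fun n x => (Wn v n x).im, fun n => ⟨⟨?_, ?_⟩, ⟨?_, ?_⟩⟩, ?_, ?_⟩
  · exact Complex.reCLM.contDiff.comp (Wn_smooth h.memLp n)
  · exact (Wn_cs v n).comp_left (g := Complex.re) Complex.zero_re
  · exact Complex.imCLM.contDiff.comp (Wn_smooth h.memLp n)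
  · exact (Wn_cs v n).comp_left (g := Complex.im) Complex.zero_im
  · simp only [Complex.re_add_im]
    refine squeeze_zero (fun n => integral_nonneg fun x => by positivity) (fun n => ?_)
      (hlim v h.memLp)
    apply key v h.memLp n
    intro x
    have e : v x - Wn v n x = ((1 - cut n x : ℝ) : ℂ) * v x + (cut n x : ℂ) *
        (v x - mol (rh n) v x) := by
      unfold Wn
      rw [Complex.real_smul]
      push_cast
      ring
    rw [e]
    have h1 : ‖(cut n x : ℂ) * (v x - mol (rh n) v x)‖ ≤ ‖mol (rh n) v x - v x‖ := by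
      rw [norm_mul, norm_sub_rev, Complex.norm_real, Real.norm_eq_abs,
        abs_of_nonneg (cut_nonneg n x)]
      exact mul_le_of_le_one_left (norm_nonneg _) (cut_le_one n x)
    have h2 : 0 ≤ C / ((n : ℝ) + 1) * ‖mol (rh n) v x‖ := by positivity
    have h3 := norm_add_le (((1 - cut n x : ℝ) : ℂ) * v x) ((cut n x : ℂ) *
        (v x - mol (rh n) v x))
    linarith
  · intro i
    have hpd : ∀ n x, ((pd i (fun x => (Wn v n x).re) x : ℝ) : ℂ) +
        ((pd i (fun x => (Wn v n x).im) x : ℝ) : ℂ) * Complex.I =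
        fderiv ℝ (Wn v n) x (EuclideanSpace.single i 1) := by
      intro n x
      have hd : HasFDerivAt (Wn v n) (fderiv ℝ (Wn v n) x) x :=
        ((Wn_smooth h.memLp n).differentiable (by simp)).differentiableAt.hasFDerivAt
      have h1 : HasFDerivAt (fun x => (Wn v n x).re) (Complex.reCLM.comp (fderiv ℝ (Wn v n) x)) x :=
        Complex.reCLM.hasFDerivAt.comp x hd
      have h2 : HasFDerivAt (fun x => (Wn v n x).im) (Complex.imCLM.comp (fderiv ℝ (Wn v n) x)) x :=
        Complex.imCLM.hasFDerivAt.comp x hd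
      unfold pd
      rw [h1.fderiv, h2.fderiv]
      simp only [ContinuousLinearMap.comp_apply, Complex.reCLM_apply, Complex.imCLM_apply,
        Complex.re_add_im]
    simp only [hpd]
    refine squeeze_zero (fun n => integral_nonneg fun x => by positivity) (fun n => ?_)
      (hlim (G i) (h.memLp_grad i))
    apply key (G i) (h.memLp_grad i) n
    intro x
    rw [Wn_fderiv h]
    have e : G i x - (cut n x • mol (rh n) (G i) x + pd i (cut n) x • mol (rh n) v x) =
        ((1 - cut n x : ℝ) : ℂ) * G i x + (cut n x : ℂ) * (G i x - mol (rh n) (G i) x) +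
        (-((pd i (cut n) x : ℝ) : ℂ) * mol (rh n) v x) := by
      rw [Complex.real_smul, Complex.real_smul]
      push_cast
      ring
    rw [e]
    have h1 : ‖(cut n x : ℂ) * (G i x - mol (rh n) (G i) x)‖ ≤ ‖mol (rh n) (G i) x - G i x‖ := by
      rw [norm_mul, norm_sub_rev, Complex.norm_real, Real.norm_eq_abs,
        abs_of_nonneg (cut_nonneg n x)]
      exact mul_le_of_le_one_left (norm_nonneg _) (cut_le_one n x)
    have h2 : ‖-((pd i (cut n) x : ℝ) : ℂ) * mol (rh n) v x‖ ≤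
        C / ((n : ℝ) + 1) * ‖mol (rh n) v x‖ := by
      rw [norm_mul, norm_neg, Complex.norm_real, Real.norm_eq_abs]
      exact mul_le_mul_of_nonneg_right (hC n i x) (norm_nonneg _)
    exact norm_add₃_le.trans (add_le_add (add_le_add le_rfl h1) h2)

end Pool.Agent.H38.HM
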