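import Pool.Agent.H38.HM.Lip

/-! Module DINI. -/

namespace Pool.Agent.H38.HM

open MeasureTheory Set Filter Topology Real
open Pool.Agent.H99.HM

/-- comparison of initial slopes from comparison of the mass functions -/
theorem slope_le {x a b : ℝ} {s s1 r r1 : ℝ → ℝ} (hs : Ext x a s s1) (hr : Ext x b r r1)
    (hle : ∀ t, 0 ≤ t → Sf s t ≤ Sf r t) : s1 0 ≤ r1 0 := by
  by_contra hcon
  push Not at hcon
  obtain ⟨sc, _, _, sS0, sScont, sSder, _⟩ := fa x a s s1 hs
  obtain ⟨rc, _, _, rS0, rScont, rSder, _⟩ := fa x b r r1 hr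
  have hc : ContinuousWithinAt (fun t => s1 t - r1 t) (Ici 0) 0 :=
    (hs.cont1 0 (mem_Ici.2 le_rfl)).sub (hr.cont1 0 (mem_Ici.2 le_rfl))
  have hev : ∀ᶠ t in 𝓝[Ici 0] (0 : ℝ), 0 < s1 t - r1 t :=
    hc.eventually (lt_mem_nhds (by simpa using hcon))
  obtain ⟨d, hd0, hd⟩ : ∃ d : ℝ, 0 < d ∧ ∀ t ∈ Icc (0 : ℝ) d, 0 < s1 t - r1 t := by
    rw [eventually_nhdsWithin_iff, Metric.eventually_nhds_iff] at hev
    obtain ⟨ε, hε, hε2⟩ := hev
    refine ⟨ε / 2, by linarith, fun t ht => hε2 ?_ ht.1⟩
    rw [Real.dist_eq, sub_zero, abs_of_nonneg ht.1]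
    linarith [ht.2]
  have m1 : StrictMonoOn (s - r) (Icc 0 d) := by
    apply strictMonoOn_of_deriv_pos (convex_Icc 0 d)
    · exact (sc.mono Icc_subset_Ici_self).sub (rc.mono Icc_subset_Ici_self)
    · intro t ht
      rw [interior_Icc] at ht
      rw [((hs.der t ht.1).sub (hr.der t ht.1)).deriv]
      exact hd t ⟨ht.1.le, ht.2.le⟩
  have h1 : ∀ t ∈ Ioc (0 : ℝ) d, r t < s t := by
    intro t ht
    have := m1 (left_mem_Icc.2 hd0.le) ⟨ht.1.le, ht.2⟩ ht.1
    simp only [Pi.sub_apply, hs.zero, hr.zero, sub_self] at this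
    linarith
  have m2 : StrictMonoOn (Sf s - Sf r) (Icc 0 d) := by
    apply strictMonoOn_of_deriv_pos (convex_Icc 0 d)
    · exact (sScont.mono Icc_subset_Ici_self).sub (rScont.mono Icc_subset_Ici_self)
    · intro t ht
      rw [interior_Icc] at ht
      rw [((sSder t ht.1).sub (rSder t ht.1)).deriv]
      have e1 := h1 t ⟨ht.1, ht.2.le⟩
      have e2 := hr.pos t ht.1
      have e3 : r t ^ 2 < s t ^ 2 := by nlinarith
      have h4 : 0 < 4 * π := by positivity
      nlinarith
  have := m2 (left_mem_Icc.2 hd0.le) (right_mem_Icc.2 hd0.le) hd0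
  simp only [Pi.sub_apply, sS0, rS0, sub_self] at this
  linarith [hle d hd0.le]

theorem kern_eq {a b : ℝ} (ha : 0 < a) (hb : 0 < b) :
    1 / a ^ 2 - 1 / b ^ 2 = (b - a) * ((a + b) / (a ^ 2 * b ^ 2)) := by
  field_simp
  ring

theorem kern2_le {a b : ℝ} (ha : 0 < a) (hab : a ≤ b) :
    (a + b) / (a ^ 2 * b ^ 2) ≤ 2 / a ^ 3 := by
  have hb : 0 < b := lt_of_lt_of_le ha hab
  rw [div_le_div_iff₀ (by positivity) (by positivity)]
  have h2 : 0 ≤ a ^ 2 * (b - a) * (2 * b + a) := by
    have : 0 ≤ b - a := by linarith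
    positivity
  nlinarith

theorem dini (hdom : T_dom) (hE1 : T_E1) (hBL : T_BL) (henv : T_env) (hK2 : T_K2)
    (hK : T_K) (hex0 : T_ex0) (heinf : T_einf) (hcontz : T_contz) : T_dini := by
  intro ell y ε hell hy hε
  -- the solutions at ell = 0
  have hsol : ∀ z : ℝ, ∃ s s1, Ext (max z 0) 0 s s1 := fun z => by
    obtain ⟨s, s1, h, _⟩ := hex0 (max z 0) (le_max_right _ _)
    exact ⟨s, s1, h⟩
  choose rr rr1 hrr using hsol
  obtain ⟨r, r1, hr, _⟩ := hex0 y hy
  set B := 4 * π * r1 0 ^ 2 with hB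
  obtain ⟨iB, eB⟩ := lin_kernel hdom hE1 hr
  -- the upper bound with a common constant
  have hA : ∀ z, y ≤ z → Einf z ell - Einf y ell ≤ (z - y) * B := by
    intro z hyz
    by_cases hE : ∃ s s1, Ext y ell s s1
    · obtain ⟨s, s1, h⟩ := hE
      have h1 := env_up hdom hE1 hBL henv hyz h
      have h2 := slope_le h hr (hK y ell s s1 r r1 h hell hr)
      have h3 := (fd y ell s s1 h).1
      have h4 : s1 0 ^ 2 ≤ r1 0 ^ 2 := pow_le_pow_left₀ h3.le h2 2
      have h5 : 4 * π * s1 0 ^ 2 ≤ B := mul_le_mul_of_nonneg_left h4 (by positivity)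
      have h6 : 0 ≤ z - y := by linarith
      nlinarith
    · have h1 := (heinf y ell hy hell.le).2.2.1 hE
      have h2 := (heinf z ell (hy.trans hyz) hell.le).2.2.2
      have h3 : 0 ≤ B := by positivity
      have h6 : 0 ≤ z - y := by linarith
      nlinarith
  -- convergence of the mass functions
  have hconvS : ∀ t, 0 ≤ t → Tendsto (fun z => Sf (rr z) t) (𝓝[>] y) (𝓝 (Sf r t)) := by
    intro t ht
    apply tendsto_of_seq_tendsto
    intro u hu
    have hu1 : Tendsto u atTop (𝓝 y) := hu.mono_right nhdsWithin_le_nhds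
    have hu2 : Tendsto (fun n => max (u n) 0) atTop (𝓝 y) := by
      have := hu1.max (tendsto_const_nhds (x := (0 : ℝ)))
      rwa [max_eq_left hy] at this
    exact hcontz (fun n => max (u n) 0) y (fun n => rr (u n)) (fun n => rr1 (u n)) r r1 hu2
      (fun n => hrr (u n)) hr t ht
  -- the kernel
  set G : ℝ → ℝ := fun z => ∫ t in Ioi (0 : ℝ),
    ((y + t) + (z + t)) / ((y + t) ^ 2 * (z + t) ^ 2) * (Sf (rr z) t - Sf (rr z) t ^ 2 / 2) with hG
  have hF : ∀ z, ExtFacts (max z 0) 0 (rr z) (rr1 z) := fun z => facts _ _ _ _ (hrr z)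
  have hGlim : Tendsto G (𝓝[>] y) (𝓝 B) := by
    rw [hB, ← eB]
    -- dominating function
    set Fd : ℝ → ℝ := fun t => min (4 * π * 68 ^ 2 * t ^ 3) 2 with hFd
    have hFdc : Continuous Fd := by
      apply Continuous.min
      · fun_prop
      · exact continuous_const
    have hdomF : IntegrableOn (fun t => Fd t / (0 + t) ^ 3) (Ioi 0) := by
      refine (hdom 0 Fd (4 * π * 68 ^ 2 + 2) le_rfl hFdc.aestronglyMeasurable ?_ ?_).2
      · intro t ht
        have h3 : 0 ≤ t ^ 3 := pow_nonneg ht.1.le 3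
        have h4 : 0 ≤ 4 * π * 68 ^ 2 * t ^ 3 := by positivity
        rw [abs_of_nonneg (le_min h4 (by norm_num))]
        exact (min_le_left _ _).trans (by nlinarith)
      · intro t ht
        have h3 : 0 ≤ t ^ 3 := pow_nonneg (by linarith) 3
        have h4 : 0 ≤ 4 * π * 68 ^ 2 * t ^ 3 := by positivity
        rw [abs_of_nonneg (le_min h4 (by norm_num))]
        refine (min_le_right _ _).trans ?_
        have : 0 ≤ 4 * π * 68 ^ 2 := by positivity
        linarith
    apply tendsto_integral_filter_of_dominated_convergence (fun t => 2 * (Fd t / (0 + t) ^ 3))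
    · filter_upwards [self_mem_nhdsWithin] with z hz
      have hz' : y < z := hz
      apply ContinuousOn.aestronglyMeasurable _ measurableSet_Ioi
      have hSc := (hF z).Scont.mono Ioi_subset_Ici_self
      apply ContinuousOn.mul
      · apply ContinuousOn.div
        · fun_prop
        · fun_prop
        · intro t ht
          have ht0 : (0 : ℝ) < t := ht
          have h1 : 0 < y + t := by linarith
          have h2 : 0 < z + t := by linarith
          positivity
      · exact hSc.sub ((hSc.pow 2).div_const 2)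
    · filter_upwards [self_mem_nhdsWithin] with z hz
      have hz' : y < z := hz
      have hz0 : max z 0 = z := max_eq_left (by linarith)
      rw [ae_restrict_iff' measurableSet_Ioi]
      refine Filter.Eventually.of_forall (fun t ht => ?_)
      have ht0 : (0 : ℝ) < t := ht
      have e1 := kern2_le (a := y + t) (b := z + t) (by linarith) (by linarith)
      have e2 : 2 / (y + t) ^ 3 ≤ 2 / (0 + t) ^ 3 := by
        apply div_le_div_of_nonneg_left (by norm_num) (by positivity)
        apply pow_le_pow_left₀ (by linarith) (by linarith)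
      have hS0 := (hF z).Spos t ht0
      have hSM := (hF z).Slt t ht0.le
      have hM2 := hBL _ _ _ _ (hrr z)
      have e3 : 0 ≤ Sf (rr z) t - Sf (rr z) t ^ 2 / 2 := by nlinarith
      have e4 : Sf (rr z) t - Sf (rr z) t ^ 2 / 2 ≤ Fd t := by
        have e5 : Sf (rr z) t ≤ Fd t := by
          apply le_min
          · rcases le_total t 1 with h1 | h1
            · exact ((hK2 _ _ _ _ (hrr z)).2.2 t ⟨ht0.le, h1⟩).2.2
            · have h2 : (1 : ℝ) ≤ t ^ 3 := one_le_pow₀ h1
              have h3 : (2 : ℝ) ≤ 4 * π * 68 ^ 2 := by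
                have := Real.pi_gt_three
                nlinarith
              nlinarith
          · linarith
        nlinarith [sq_nonneg (Sf (rr z) t)]
      have e6 : 0 ≤ (y + t + (z + t)) / ((y + t) ^ 2 * (z + t) ^ 2) := by
        have h1 : 0 < y + t := by linarith
        have h2 : 0 < z + t := by linarith
        positivity
      rw [Real.norm_eq_abs, abs_of_nonneg (mul_nonneg e6 e3)]
      calc (y + t + (z + t)) / ((y + t) ^ 2 * (z + t) ^ 2) * (Sf (rr z) t - Sf (rr z) t ^ 2 / 2)
          ≤ 2 / (0 + t) ^ 3 * Fd t :=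
            mul_le_mul (e1.trans e2) e4 e3 (by positivity)
        _ = 2 * (Fd t / (0 + t) ^ 3) := by ring
    · exact hdomF.const_mul 2
    · rw [ae_restrict_iff' measurableSet_Ioi]
      refine Filter.Eventually.of_forall (fun t ht => ?_)
      have ht0 : (0 : ℝ) < t := ht
      have hyt : 0 < y + t := by linarith
      have hz1 : Tendsto (fun z : ℝ => z) (𝓝[>] y) (𝓝 y) := nhdsWithin_le_nhds
      have k1 : Tendsto (fun z : ℝ => (y + t + (z + t)) / ((y + t) ^ 2 * (z + t) ^ 2)) (𝓝[>] y)
          (𝓝 ((y + t + (y + t)) / ((y + t) ^ 2 * (y + t) ^ 2))) := by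
        have hc : ContinuousAt (fun z : ℝ => (y + t + (z + t)) / ((y + t) ^ 2 * (z + t) ^ 2)) y := by
          apply ContinuousAt.div
          · fun_prop
          · fun_prop
          · positivity
        exact hc.tendsto.mono_left nhdsWithin_le_nhds
      have k2 : (y + t + (y + t)) / ((y + t) ^ 2 * (y + t) ^ 2) = 2 / (y + t) ^ 3 := by
        field_simp
        ring
      rw [k2] at k1
      have k3 := hconvS t ht0.le
      exact k1.mul (k3.sub ((k3.pow 2).div_const 2))
  have hev := hGlim.eventually (lt_mem_nhds (show B - ε < B by linarith))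
  filter_upwards [hev, self_mem_nhdsWithin] with z hz hyz
  have hyz' : y < z := hyz
  have hz0 : max z 0 = z := max_eq_left (by linarith)
  have h1 := hA z hyz'.le
  have h2 : Ext z 0 (rr z) (rr1 z) := by
    have := hrr z
    rwa [hz0] at this
  obtain ⟨i3, e3⟩ := henv z y 0 (rr z) (rr1 z) hy h2
  have h4 : ∫ t in Ioi (0 : ℝ), (1 / (z + t) ^ 2 - 1 / (y + t) ^ 2) *
      (Sf (rr z) t - Sf (rr z) t ^ 2 / 2) = -((z - y) * G z) := by
    rw [hG]
    simp only
    rw [← integral_const_mul, ← integral_neg]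
    apply setIntegral_congr_fun measurableSet_Ioi
    intro t ht
    have ht0 : (0 : ℝ) < t := ht
    have k := kern_eq (a := y + t) (b := z + t) (by linarith) (by linarith)
    have k2 : z + t - (y + t) = z - y := by ring
    rw [k2] at k
    have k3 : 1 / (z + t) ^ 2 - 1 / (y + t) ^ 2 =
        -((z - y) * ((y + t + (z + t)) / ((y + t) ^ 2 * (z + t) ^ 2))) := by linarith
    simp only [k3]
    ring
  rw [h4] at e3
  have h5 : 0 < z - y := by linarith
  nlinarith

end Pool.Agent.H38.HM
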