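import Pool.Agent.H38.HM.FB

/-! Module FD: behaviour at the origin. -/

namespace Pool.Agent.H38.HM

open MeasureTheory Set Filter Topology Real
open Pool.Agent.H99.HM

theorem fd : T_fd := by
  intro x ell s s1 h
  obtain ⟨hc, hM, hV, h0, hcont, hder, hsm, hpos, hlt, hlim⟩ := fa x ell s s1 h
  obtain ⟨b1, b2, b3, b4, b5⟩ := fb x ell s s1 h
  have hx := h.x0
  have hl := h.l0
  -- bound for s1 on [0,1]
  obtain ⟨C0, hC0⟩ := isCompact_Icc.exists_bound_of_continuousOn
    (h.cont1.mono (Icc_subset_Ici_self : Icc (0 : ℝ) 1 ⊆ Ici 0))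
  have hC0nn : 0 ≤ C0 := le_trans (norm_nonneg _) (hC0 0 ⟨le_rfl, zero_le_one⟩)
  have hsup : ∀ t ∈ Icc (0 : ℝ) 1, s t ≤ C0 * t := by
    intro t ht
    have h1 : ‖∫ τ in (0 : ℝ)..t, s1 τ‖ ≤ C0 * |t - 0| := by
      apply intervalIntegral.norm_integral_le_of_norm_le_const
      intro τ hτ
      rw [uIoc_of_le ht.1] at hτ
      exact hC0 τ ⟨hτ.1.le, hτ.2.trans ht.2⟩
    have h2 := hV t ht.1
    unfold Vg at h2
    rw [h2, sub_zero, abs_of_nonneg ht.1, Real.norm_eq_abs] at h1
    exact (le_abs_self _).trans h1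
  have hsnn : ∀ t, 0 ≤ t → 0 ≤ s t := by
    intro t ht
    rcases eq_or_lt_of_le ht with h1 | h1
    · rw [← h1, h.zero]
    · exact (h.pos t h1).le
  have hS : ∀ t ∈ Icc (0 : ℝ) 1, Sf s t ≤ 4 * π * C0 ^ 2 * t ^ 3 := by
    intro t ht
    have h1 : ‖∫ τ in (0 : ℝ)..t, s τ ^ 2‖ ≤ (C0 * t) ^ 2 * |t - 0| := by
      apply intervalIntegral.norm_integral_le_of_norm_le_const
      intro τ hτ
      rw [uIoc_of_le ht.1] at hτ
      rw [norm_pow, Real.norm_eq_abs, abs_of_nonneg (hsnn τ hτ.1.le)]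
      apply pow_le_pow_left₀ (hsnn τ hτ.1.le)
      exact (hsup τ ⟨hτ.1.le, hτ.2.trans ht.2⟩).trans (mul_le_mul_of_nonneg_left hτ.2 hC0nn)
    rw [sub_zero, abs_of_nonneg ht.1, Real.norm_eq_abs] at h1
    unfold Sf
    have h2 := (le_abs_self _).trans h1
    have h3 : (0 : ℝ) ≤ 4 * π := by positivity
    calc 4 * π * ∫ τ in (0 : ℝ)..t, s τ ^ 2 ≤ 4 * π * ((C0 * t) ^ 2 * t) :=
          mul_le_mul_of_nonneg_left h2 h3
      _ = 4 * π * C0 ^ 2 * t ^ 3 := by ring
  -- s1 0 > 0
  have hs10 : 0 < s1 0 := by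
    by_contra hneg
    push Not at hneg
    set K := ell + 1 + Mf s with hK
    have hKpos : 0 < K := by positivity
    set δ := min 1 (1 / K) with hδ
    have hδpos : 0 < δ := lt_min one_pos (by positivity)
    have hδ1 : δ ≤ 1 := min_le_left _ _
    have hδK : K * δ ≤ 1 := by
      have : δ ≤ 1 / K := min_le_right _ _
      rw [le_div_iff₀ hKpos] at this
      linarith
    have step : ∀ m : ℝ, 0 ≤ m → (∀ t ∈ Icc (0 : ℝ) δ, s t ≤ m * t) →
        ∀ t ∈ Icc (0 : ℝ) δ, s t ≤ m / 2 * t := by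
      intro m hm hmt
      have g1 : AntitoneOn (fun τ => s1 τ - m * K * τ) (Icc 0 δ) := by
        apply antitoneOn_of_deriv_nonpos (convex_Icc 0 δ)
        · exact (h.cont1.mono Icc_subset_Ici_self).sub (by fun_prop)
        · intro τ hτ
          rw [interior_Icc] at hτ
          exact (((h.der1 τ hτ.1).sub ((hasDerivAt_id τ).const_mul (m * K))).differentiableAt).differentiableWithinAt
        · intro τ hτ
          rw [interior_Icc] at hτ
          have hd : HasDerivAt (fun τ => s1 τ - m * K * τ)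
              ((ell - phi x s τ) * s τ - m * K * 1) τ :=
            (h.der1 τ hτ.1).sub ((hasDerivAt_id τ).const_mul (m * K))
          rw [hd.deriv]
          have hτ0 := hτ.1
          have e1 := hmt τ ⟨hτ.1.le, hτ.2.le⟩
          have e2 := abs_le.1 (b3 τ hτ0)
          have e3 : (1 + Mf s) / (x + τ) ≤ (1 + Mf s) / τ := by
            apply div_le_div_of_nonneg_left (by positivity) hτ0
            linarith
          have e4 : ell - phi x s τ ≤ ell + (1 + Mf s) / τ := by linarith [e2.1]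
          have e5 := h.pos τ hτ0
          have e6 : (ell - phi x s τ) * s τ ≤ (ell + (1 + Mf s) / τ) * (m * τ) := by
            calc (ell - phi x s τ) * s τ ≤ (ell + (1 + Mf s) / τ) * s τ :=
                  mul_le_mul_of_nonneg_right e4 e5.le
              _ ≤ (ell + (1 + Mf s) / τ) * (m * τ) :=
                  mul_le_mul_of_nonneg_left e1 (by positivity)
          have e7 : (ell + (1 + Mf s) / τ) * (m * τ) = m * (ell * τ + (1 + Mf s)) := by
            field_simp
          have e8 : ell * τ ≤ ell := by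
            have : τ ≤ 1 := hτ.2.le.trans hδ1
            nlinarith
          have e9 : m * (ell * τ + (1 + Mf s)) ≤ m * K := by
            apply mul_le_mul_of_nonneg_left _ hm
            rw [hK]; linarith
          linarith
      have g1' : ∀ τ ∈ Icc (0 : ℝ) δ, s1 τ ≤ m * K * τ := by
        intro τ hτ
        have := g1 (left_mem_Icc.2 hδpos.le) hτ hτ.1
        simp only [mul_zero, sub_zero] at this
        linarith
      have g2 : AntitoneOn (fun τ => s τ - m * K / 2 * τ ^ 2) (Icc 0 δ) := by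
        have hd : ∀ τ, 0 < τ → HasDerivAt (fun τ => s τ - m * K / 2 * τ ^ 2)
            (s1 τ - m * K * τ) τ := by
          intro τ hτ
          refine HasDerivAt.congr_deriv ((h.der τ hτ).sub ((hasDerivAt_pow 2 τ).const_mul (m * K / 2))) ?_
          norm_num
          ring
        apply antitoneOn_of_deriv_nonpos (convex_Icc 0 δ)
        · exact (hc.mono Icc_subset_Ici_self).sub (by fun_prop)
        · intro τ hτ
          rw [interior_Icc] at hτ
          exact (hd τ hτ.1).differentiableAt.differentiableWithinAt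
        · intro τ hτ
          rw [interior_Icc] at hτ
          rw [(hd τ hτ.1).deriv]
          linarith [g1' τ ⟨hτ.1.le, hτ.2.le⟩]
      intro t ht
      have := g2 (left_mem_Icc.2 hδpos.le) ht ht.1
      simp only [h.zero] at this
      have e1 : m * K / 2 * t ^ 2 ≤ m / 2 * t := by
        have : K * t ≤ 1 := (mul_le_mul_of_nonneg_left ht.2 hKpos.le).trans hδK
        have e2 : m * t * (K * t) ≤ m * t * 1 :=
          mul_le_mul_of_nonneg_left this (mul_nonneg hm ht.1)
        nlinarith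
      linarith
    have all : ∀ n : ℕ, ∀ t ∈ Icc (0 : ℝ) δ, s t ≤ C0 / 2 ^ n * t := by
      intro n
      induction n with
      | zero =>
        intro t ht
        have := hsup t ⟨ht.1, ht.2.trans hδ1⟩
        simpa using this
      | succ n ih =>
        have := step (C0 / 2 ^ n) (by positivity) ih
        intro t ht
        have h2 := this t ht
        have e : C0 / 2 ^ n / 2 = C0 / 2 ^ (n + 1) := by rw [pow_succ]; field_simp
        rwa [e] at h2
    have hlim0 : Tendsto (fun n : ℕ => C0 / 2 ^ n * δ) atTop (𝓝 (0 * δ)) := by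
      apply Tendsto.mul_const
      have h1 : Tendsto (fun n : ℕ => C0 * (1 / 2 : ℝ) ^ n) atTop (𝓝 (C0 * 0)) :=
        (tendsto_pow_atTop_nhds_zero_of_lt_one (by norm_num) (by norm_num)).const_mul _
      rw [mul_zero] at h1
      apply h1.congr
      intro n
      rw [one_div, inv_pow]
      rfl
    rw [zero_mul] at hlim0
    have := ge_of_tendsto' hlim0 (fun n => all n δ ⟨hδpos.le, le_rfl⟩)
    linarith [h.pos δ hδpos]
  refine ⟨hs10, ?_⟩
  -- lower bound
  have hev : ∀ᶠ t in 𝓝[Ici 0] (0 : ℝ), s1 0 / 2 < s1 t :=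
    (h.cont1 0 (mem_Ici.2 le_rfl)).eventually (lt_mem_nhds (by linarith))
  obtain ⟨d, hd0, hd⟩ : ∃ d : ℝ, 0 < d ∧ ∀ t ∈ Icc (0 : ℝ) d, s1 0 / 2 < s1 t := by
    rw [eventually_nhdsWithin_iff, Metric.eventually_nhds_iff] at hev
    obtain ⟨ε, hε, hε2⟩ := hev
    refine ⟨ε / 2, by linarith, fun t ht => hε2 ?_ ht.1⟩
    rw [Real.dist_eq, sub_zero, abs_of_nonneg ht.1]
    linarith [ht.2]
  have hlow1 : ∀ t ∈ Icc (0 : ℝ) d, s1 0 / 2 * t ≤ s t := by
    have g : MonotoneOn (fun τ => s τ - s1 0 / 2 * τ) (Icc 0 d) := by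
      have hdd : ∀ τ, 0 < τ → HasDerivAt (fun τ => s τ - s1 0 / 2 * τ)
          (s1 τ - s1 0 / 2 * 1) τ := fun τ hτ =>
        (h.der τ hτ).sub ((hasDerivAt_id τ).const_mul (s1 0 / 2))
      apply monotoneOn_of_deriv_nonneg (convex_Icc 0 d)
      · exact (hc.mono Icc_subset_Ici_self).sub (by fun_prop)
      · intro τ hτ
        rw [interior_Icc] at hτ
        exact (hdd τ hτ.1).differentiableAt.differentiableWithinAt
      · intro τ hτ
        rw [interior_Icc] at hτ
        rw [(hdd τ hτ.1).deriv]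
        linarith [hd τ ⟨hτ.1.le, hτ.2.le⟩]
    intro t ht
    have := g (left_mem_Icc.2 hd0.le) ht ht.1
    simp only [h.zero, mul_zero, sub_zero] at this
    linarith
  obtain ⟨μ, hμ0, hμ⟩ : ∃ μ : ℝ, 0 < μ ∧ ∀ t ∈ Icc d 1, μ ≤ s t := by
    by_cases hne : (Icc d (1 : ℝ)).Nonempty
    · obtain ⟨t0, ht0, hmin⟩ := isCompact_Icc.exists_isMinOn hne
        (hc.mono (fun t ht => mem_Ici.2 (hd0.le.trans ht.1)))
      exact ⟨s t0, h.pos t0 (lt_of_lt_of_le hd0 ht0.1), fun t ht => hmin ht⟩
    · exact ⟨1, one_pos, fun t ht => absurd ⟨t, ht⟩ hne⟩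
  refine ⟨min (s1 0 / 2) μ, C0 + 4 * π * C0 ^ 2 + 1, lt_min (by linarith) hμ0, by positivity, ?_⟩
  intro t ht
  have hp : 0 ≤ 4 * π * C0 ^ 2 := by positivity
  refine ⟨?_, ?_, ?_, ?_⟩
  · rcases le_total t d with htd | htd
    · exact (mul_le_mul_of_nonneg_right (min_le_left _ _) ht.1).trans (hlow1 t ⟨ht.1, htd⟩)
    · have e1 := hμ t ⟨htd, ht.2⟩
      have e2 : min (s1 0 / 2) μ * t ≤ μ * t := mul_le_mul_of_nonneg_right (min_le_right _ _) ht.1
      have e3 : μ * t ≤ μ := by nlinarith [ht.2]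
      linarith
  · have := hsup t ht
    nlinarith [ht.1]
  · have := hC0 t ht
    rw [Real.norm_eq_abs] at this
    linarith
  · have := hS t ht
    have h3 : 0 ≤ t ^ 3 := pow_nonneg ht.1 3
    nlinarith

end Pool.Agent.H38.HM
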