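import Pool.Agent.H38.HM.FC
import Pool.Agent.H38.HM.FD
import Pool.Agent.H99.HM.Facts

/-! Module FE: the logarithmic derivative is bounded; all basic facts. -/

namespace Pool.Agent.H38.HM

open MeasureTheory Set Filter Topology Real
open Pool.Agent.H99.HM

theorem fe : T_fe := by
  intro x ell s s1 h
  obtain ⟨hc, hM, hV, h0, hcont, hder, hsm, hpos, hlt, hlim⟩ := fa x ell s s1 h
  obtain ⟨b1, b2, b3, b4, b5⟩ := fb x ell s s1 h
  obtain ⟨c1, c2, c3⟩ := fc x ell s s1 h
  have hx := h.x0
  have hl := h.l0
  set K := ell + 1 + Mf s with hK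
  have hKpos : 0 < K := by positivity
  have hbK : ∀ t, 1 ≤ t → |ell - phi x s t| ≤ K := by
    intro t ht
    have hb := abs_le.1 (b3 t (by linarith))
    have hb2 : (1 + Mf s) / (x + t) ≤ 1 + Mf s := by
      apply div_le_self (by linarith)
      linarith
    rw [abs_le]
    constructor <;> linarith [hb.1, hb.2]
  have hs1p : 0 < s 1 := h.pos 1 one_pos
  set C := K + 1 + |s1 1| / s 1 with hC
  have hC1 : K + 1 ≤ C := by
    have : 0 ≤ |s1 1| / s 1 := by positivity
    linarith
  have hCpos : 0 < C := by linarith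
  have hCK : K ≤ C ^ 2 := by nlinarith
  refine ⟨C, hCpos, ?_⟩
  -- upper bound
  have hup : ∀ t, 1 ≤ t → s1 t ≤ C * s t := by
    have hd : ∀ τ, 0 < τ → HasDerivAt (fun τ => Real.exp (C * τ) * (C * s τ - s1 τ))
        (Real.exp (C * τ) * C * (C * s τ - s1 τ) +
          Real.exp (C * τ) * (C * s1 τ - (ell - phi x s τ) * s τ)) τ := by
      intro τ hτ
      have e1 : HasDerivAt (fun τ => Real.exp (C * τ)) (Real.exp (C * τ) * C) τ := by
        have := ((hasDerivAt_id τ).const_mul C).exp
        simpa using this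
      exact e1.mul (((h.der τ hτ).const_mul C).sub (h.der1 τ hτ))
    have hm : MonotoneOn (fun τ => Real.exp (C * τ) * (C * s τ - s1 τ)) (Ici 1) := by
      apply monotoneOn_of_deriv_nonneg (convex_Ici 1)
      · intro τ hτ
        exact (hd τ (lt_of_lt_of_le one_pos hτ)).continuousAt.continuousWithinAt
      · intro τ hτ
        rw [interior_Ici] at hτ
        exact (hd τ (lt_trans one_pos hτ)).differentiableAt.differentiableWithinAt
      · intro τ hτ
        rw [interior_Ici] at hτ
        have hτ1 : (1 : ℝ) < τ := hτ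
        rw [(hd τ (lt_trans one_pos hτ)).deriv]
        have e1 := (abs_le.1 (hbK τ hτ1.le)).2
        have e2 := h.pos τ (lt_trans one_pos hτ)
        have e3 : 0 ≤ C ^ 2 * s τ - (ell - phi x s τ) * s τ := by nlinarith
        have e4 := mul_nonneg (Real.exp_pos (C * τ)).le e3
        nlinarith
    intro t ht
    have h1 := hm (mem_Ici.2 le_rfl) (mem_Ici.2 ht) ht
    simp only [mul_one] at h1
    have h2 : 0 ≤ C * s 1 - s1 1 := by
      have : |s1 1| / s 1 * s 1 = |s1 1| := by field_simp
      have h3 : C * s 1 = (K + 1) * s 1 + |s1 1| := by rw [hC, add_mul, this]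
      have h4 := le_abs_self (s1 1)
      have h5 : 0 ≤ (K + 1) * s 1 := by positivity
      linarith
    have h3 : 0 ≤ Real.exp (C * t) * (C * s t - s1 t) :=
      le_trans (mul_nonneg (Real.exp_pos _).le h2) h1
    have h4 := nonneg_of_mul_nonneg_right h3 (Real.exp_pos _)
    linarith
  have hlow : ∀ t, 1 ≤ t → 0 ≤ s1 t + C * s t := by
    have hd : ∀ τ, 0 < τ → HasDerivAt (fun τ => Real.exp (-C * τ) * (s1 τ + C * s τ))
        (Real.exp (-C * τ) * (-C) * (s1 τ + C * s τ) +
          Real.exp (-C * τ) * ((ell - phi x s τ) * s τ + C * s1 τ)) τ := by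
      intro τ hτ
      have e1 : HasDerivAt (fun τ => Real.exp (-C * τ)) (Real.exp (-C * τ) * (-C)) τ := by
        have := ((hasDerivAt_id τ).const_mul (-C)).exp
        simpa using this
      exact e1.mul ((h.der1 τ hτ).add ((h.der τ hτ).const_mul C))
    have hm : AntitoneOn (fun τ => Real.exp (-C * τ) * (s1 τ + C * s τ)) (Ici 1) := by
      apply antitoneOn_of_deriv_nonpos (convex_Ici 1)
      · intro τ hτ
        exact (hd τ (lt_of_lt_of_le one_pos hτ)).continuousAt.continuousWithinAt
      · intro τ hτ
        rw [interior_Ici] at hτ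
        exact (hd τ (lt_trans one_pos hτ)).differentiableAt.differentiableWithinAt
      · intro τ hτ
        rw [interior_Ici] at hτ
        have hτ1 : (1 : ℝ) < τ := hτ
        rw [(hd τ (lt_trans one_pos hτ)).deriv]
        have e1 := (abs_le.1 (hbK τ hτ1.le)).2
        have e2 := h.pos τ (lt_trans one_pos hτ)
        have e3 : 0 ≤ C ^ 2 * s τ - (ell - phi x s τ) * s τ := by nlinarith
        have e4 := mul_nonneg (Real.exp_pos (-C * τ)).le e3
        nlinarith
    intro t ht
    by_contra hneg
    push Not at hneg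
    set g := -(Real.exp (-C * t) * (s1 t + C * s t)) with hg
    have hgpos : 0 < g := by
      rw [hg, ← mul_neg]
      exact mul_pos (Real.exp_pos _) (by linarith)
    have hbig : ∀ τ, t ≤ τ → s1 τ + C * s τ ≤ -g := by
      intro τ hτ
      have h1 := hm (mem_Ici.2 ht) (mem_Ici.2 (ht.trans hτ)) hτ
      have h1' : Real.exp (-C * τ) * (s1 τ + C * s τ) ≤ -g := by rw [hg, neg_neg]; exact h1
      have h2 : Real.exp (-C * τ) ≤ 1 := by
        rw [Real.exp_le_one_iff]
        nlinarith
      have h3 : s1 τ + C * s τ < 0 := by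
        by_contra h4
        push Not at h4
        have := mul_nonneg (Real.exp_pos (-C * τ)).le h4
        linarith
      nlinarith
    have hl : Tendsto (fun τ => s1 τ + C * s τ) atTop (𝓝 0) := by
      have := c2.add (c1.const_mul C)
      simpa using this
    have := le_of_tendsto hl (by
      filter_upwards [eventually_ge_atTop t] with τ hτ
      exact hbig τ hτ)
    linarith
  intro t ht
  rw [abs_le]
  exact ⟨by linarith [hlow t ht], hup t ht⟩

theorem facts : T_facts := Pool.Agent.H99.HM.facts fa fb fc fd fe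

end Pool.Agent.H38.HM
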