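import Pool.Agent.H99.HM.Targets

/-! Modules K and KO. -/

namespace Pool.Agent.H38.HM

open MeasureTheory Set Filter Topology Real
open Pool.Agent.H99.HM

theorem Sf_congr {v w : ℝ → ℝ} (h : ∀ t, 0 ≤ t → v t = w t) : ∀ t, 0 ≤ t → Sf v t = Sf w t := by
  intro t ht
  unfold Sf
  congr 1
  apply intervalIntegral.integral_congr
  intro τ hτ
  rw [uIcc_of_le ht] at hτ
  simp only [h τ hτ.1]

theorem Mf_congr {v w : ℝ → ℝ} (h : ∀ t, 0 ≤ t → v t = w t) : Mf v = Mf w := by
  unfold Mf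
  congr 1
  apply setIntegral_congr_fun measurableSet_Ioi
  intro τ hτ
  simp only [h τ (le_of_lt hτ)]

theorem att_congr {x : ℝ} {g k : ℝ → ℝ} (h : ∀ t, 0 ≤ t → Vg g t = Vg k t) : att x g = att x k := by
  unfold att
  apply setIntegral_congr_fun measurableSet_Ioi
  intro τ hτ
  simp only [Sf_congr h τ (le_of_lt hτ)]

theorem J_nonneg_of_Vg_zero {x ell : ℝ} {h : ℝ → ℝ} (h0 : ∀ t, 0 ≤ t → Vg h t = 0) :
    0 ≤ J x ell h := by
  have e1 : ∀ t, 0 ≤ t → Vg h t = Vg (fun _ => 0) t := by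
    intro t ht
    rw [h0 t ht]; simp [Vg]
  have e2 : Vg (fun _ => (0 : ℝ)) = fun _ => 0 := by funext t; simp [Vg]
  have e3 : ∀ t, Sf (fun _ => (0 : ℝ)) t = 0 := by intro t; simp [Sf]
  unfold J
  rw [Mf_congr e1, att_congr e1]
  have e4 : Mf (Vg (fun _ => (0 : ℝ))) = 0 := by rw [e2]; simp [Mf]
  have e5 : att x (fun _ => (0 : ℝ)) = 0 := by
    unfold att
    rw [e2]
    simp [e3]
  rw [e4, e5]
  have e6 : 0 ≤ kin h := by
    unfold kin
    apply mul_nonneg (by positivity)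
    exact setIntegral_nonneg measurableSet_Ioi (fun t _ => sq_nonneg _)
  linarith

theorem k (hsmall : T_small) (hko : T_Ko) (hkc : T_Kc) : T_K := by
  intro x ell s s1 r r1 hs hl hr t0 ht0
  by_contra hcon
  push Not at hcon
  set B : Set ℝ := {l | ∃ s' s1', Ext x l s' s1' ∧ ∃ t, 0 ≤ t ∧ Sf r t < Sf s' t} with hB
  have hmem : ell ∈ B := ⟨s, s1, hs, t0, ht0, hcon⟩
  have hbd : BddAbove B := ⟨1, fun l hl => by
    obtain ⟨s', s1', h1, _⟩ := hl
    exact (hsmall x l s' s1' h1).le⟩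
  obtain ⟨u, _, hu, huB⟩ := exists_seq_tendsto_sSup ⟨ell, hmem⟩ hbd
  set L := sSup B with hL
  have hLpos : 0 < L := lt_of_lt_of_le hl (le_csSup hbd hmem)
  by_cases hall : ∀ s s1, Ext x L s s1 → ∀ t, 0 ≤ t → Sf s t ≤ Sf r t
  · choose ss s1s hE tt htt hlt using huB
    obtain ⟨n, hn⟩ := hkc x r r1 hr u L ss s1s hLpos hu hE hall
    exact absurd (hn (tt n) (htt n)) (not_le.2 (hlt n))
  · push Not at hall
    obtain ⟨s', s1', hE, t, ht, hlt⟩ := hall
    obtain ⟨ell', s'', s1'', h1, h2, h3⟩ := hko x L s' s1' r r1 hE hr t ht hlt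
    have : ell' ∈ B := ⟨s'', s1'', h2, t, ht, h3⟩
    exact absurd (le_csSup hbd this) (not_le.2 h1)

theorem ko (hfacts : T_facts) (henergy : T_energy) (hexp : T_exp)
    (hEL : T_EL) (hcomp : T_comp) (huniq : T_uniq) : T_Ko := by
  intro x ell s s1 r r1 hs hr t0 ht0 hlt
  obtain ⟨hadm, _, _, hJ, hI⟩ := henergy x ell s s1 hs
  have F := hfacts x ell s s1 hs
  have hMs : Mf (Vg s1) = Mf s := Mf_congr F.vg
  set I := Iw 2 2 x s with hIdef
  set ε := I / (4 * Mf s) with hε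
  have hMpos := F.mpos
  have hεpos : 0 < ε := by positivity
  set ells : ℕ → ℝ := fun n => ell + ε / ((n : ℝ) + 1) with hells
  have hgt : ∀ n, ell < ells n := fun n => by
    have : 0 < ε / ((n : ℝ) + 1) := by positivity
    simp only [hells]; linarith
  have hlim : Tendsto ells atTop (𝓝 ell) := by
    have h1 : Tendsto (fun n : ℕ => ε * (1 / ((n : ℝ) + 1))) atTop (𝓝 (ε * 0)) :=
      tendsto_one_div_add_atTop_nhds_zero_nat.const_mul ε
    have h2 := h1.const_add ell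
    rw [mul_zero, add_zero] at h2
    apply h2.congr
    intro n
    simp only [hells]; ring
  have hJn : ∀ n, J x (ells n) s1 < 0 := by
    intro n
    have h1 : J x (ells n) s1 = J x ell s1 + ε / ((n : ℝ) + 1) * Mf s := by
      unfold J
      rw [hMs]
      simp only [hells]; ring
    have h2 : ε / ((n : ℝ) + 1) ≤ ε := by
      apply div_le_self hεpos.le
      have : (0 : ℝ) ≤ n := Nat.cast_nonneg n
      linarith
    have h3 : ε * Mf s = I / 4 := by
      rw [hε]; field_simp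
    have h4 : ε / ((n : ℝ) + 1) * Mf s ≤ ε * Mf s := mul_le_mul_of_nonneg_right h2 hMpos.le
    rw [h1, hJ]
    linarith
  have key : ∀ n, ∃ s' s1', Ext x (ells n) s' s1' := by
    intro n
    have hpos : 0 < ells n := lt_of_le_of_lt hs.l0 (hgt n)
    obtain ⟨g, hg⟩ := hexp x (ells n) hs.x0 hpos
    rcases hEL x (ells n) g hs.x0 hpos.le hg with h1 | ⟨s', s1', h1, _⟩
    · have h2 := hg.2 s1 hadm
      have h3 := J_nonneg_of_Vg_zero (x := x) (ell := ells n) h1
      linarith [hJn n]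
    · exact ⟨s', s1', h1⟩
  choose ss s1s hE using key
  obtain ⟨ψ, h, z, z1, hψ, hmin', hz, hzlim, hSlim, hcase⟩ :=
    hcomp (fun _ => x) ells x ell ss s1s tendsto_const_nhds hlim hE
  have hExt : Ext x ell z z1 := by
    rcases hcase with ⟨_, h0⟩ | h1
    · exfalso
      have h2 := J_nonneg_of_Vg_zero (x := x) (ell := ell) (h := h)
        (fun t ht => by rw [← hz t ht]; exact h0 t ht)
      have h3 := hmin'.2 s1 hadm
      rw [hJ] at h3
      linarith
    · exact h1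
  have huq := huniq x ell s s1 z z1 hs hExt
  have h5 : Sf z t0 = Sf s t0 := Sf_congr (fun t ht => (huq t ht).1.symm) t0 ht0
  have h6 := hSlim t0 ht0
  rw [h5] at h6
  obtain ⟨n, hn⟩ := (h6.eventually (lt_mem_nhds hlt)).exists
  exact ⟨ells (ψ n), ss (ψ n), s1s (ψ n), hgt _, hE _, hn⟩

end Pool.Agent.H38.HM
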