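import Pool.Agent.H38.HM.K
import Pool.Agent.H38.HM.FD

/-! Module KC: closed part of Lemma K. -/

namespace Pool.Agent.H38.HM

open MeasureTheory Set Filter Topology Real
open Pool.Agent.H99.HM

/-- second order Taylor estimate at the origin -/
theorem taylor34 (hK2 : T_K2) {x ell : ℝ} {s s1 : ℝ → ℝ} (h : Ext x ell s s1) :
    ∀ t ∈ Icc (0 : ℝ) 1, |s t - s1 0 * t| ≤ 34 * t ^ 2 := by
  obtain ⟨_, _, hb⟩ := hK2 x ell s s1 h
  have hc : ContinuousOn s (Ici 0) := (fa x ell s s1 h).1
  have g1 : AntitoneOn (fun τ => s τ - s1 0 * τ - 34 * τ ^ 2) (Icc 0 1) := by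
    have hd : ∀ τ, 0 < τ → HasDerivAt (fun τ => s τ - s1 0 * τ - 34 * τ ^ 2)
        (s1 τ - s1 0 - 68 * τ) τ := by
      intro τ hτ
      refine HasDerivAt.congr_deriv (((h.der τ hτ).sub ((hasDerivAt_id τ).const_mul (s1 0))).sub
        ((hasDerivAt_pow 2 τ).const_mul 34)) ?_
      norm_num
      ring
    apply antitoneOn_of_deriv_nonpos (convex_Icc 0 1)
    · exact ((hc.mono Icc_subset_Ici_self).sub (by fun_prop)).sub (by fun_prop)
    · intro τ hτ
      rw [interior_Icc] at hτ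
      exact (hd τ hτ.1).differentiableAt.differentiableWithinAt
    · intro τ hτ
      rw [interior_Icc] at hτ
      rw [(hd τ hτ.1).deriv]
      linarith [(abs_le.1 (hb τ ⟨hτ.1.le, hτ.2.le⟩).1).2]
  have g2 : MonotoneOn (fun τ => s τ - s1 0 * τ + 34 * τ ^ 2) (Icc 0 1) := by
    have hd : ∀ τ, 0 < τ → HasDerivAt (fun τ => s τ - s1 0 * τ + 34 * τ ^ 2)
        (s1 τ - s1 0 + 68 * τ) τ := by
      intro τ hτ
      refine HasDerivAt.congr_deriv (((h.der τ hτ).sub ((hasDerivAt_id τ).const_mul (s1 0))).add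
        ((hasDerivAt_pow 2 τ).const_mul 34)) ?_
      norm_num
      ring
    apply monotoneOn_of_deriv_nonneg (convex_Icc 0 1)
    · exact ((hc.mono Icc_subset_Ici_self).sub (by fun_prop)).add (by fun_prop)
    · intro τ hτ
      rw [interior_Icc] at hτ
      exact (hd τ hτ.1).differentiableAt.differentiableWithinAt
    · intro τ hτ
      rw [interior_Icc] at hτ
      rw [(hd τ hτ.1).deriv]
      linarith [(abs_le.1 (hb τ ⟨hτ.1.le, hτ.2.le⟩).1).1]
  intro t ht
  have h1 := g1 (left_mem_Icc.2 zero_le_one) ht ht.1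
  have h2 := g2 (left_mem_Icc.2 zero_le_one) ht ht.1
  simp only [h.zero] at h1 h2
  rw [abs_le]
  constructor <;> nlinarith

theorem kc (hK2 : T_K2) (hcomp : T_comp) (hLS : T_LS) (hK3 : T_K3) : T_Kc := by
  intro x r r1 hr ells ell ss s1s hell hlim hE hall
  obtain ⟨ψ, h, z, z1, hψ, hmin', hz, hzlim, hSlim, hcase⟩ :=
    hcomp (fun _ => x) ells x ell ss s1s tendsto_const_nhds hlim hE
  obtain ⟨rc, rM, rV, rS0, rScont, rSder, rSm, rSpos, rSlt, rSlim⟩ := fa x 0 r r1 hr
  -- unified facts on the limit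
  obtain ⟨β, hβ, hβr, hzβ, hzlt, hznn, hzc, hzi⟩ : ∃ β : ℝ, 0 ≤ β ∧ β < r1 0 ∧
      (∀ t ∈ Icc (0 : ℝ) 1, |z t - β * t| ≤ 34 * t ^ 2) ∧ (∀ t, 0 < t → z t < r t) ∧
      (∀ t, 0 ≤ t → 0 ≤ z t) ∧ ContinuousOn z (Ici 0) ∧
      IntegrableOn (fun t => z t ^ 2) (Ioi 0) := by
    rcases hcase with ⟨_, h0⟩ | h1
    · refine ⟨0, le_rfl, ?_, ?_, ?_, ?_, ?_, ?_⟩
      · exact (fd x 0 r r1 hr).1
      · intro t ht
        rw [h0 t ht.1, zero_mul, sub_zero, abs_zero]
        positivity
      · intro t ht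
        rw [h0 t ht.le]
        exact hr.pos t ht
      · intro t ht
        rw [h0 t ht]
      · exact (continuousOn_const (c := (0 : ℝ))).congr (fun t ht => h0 t ht)
      · apply IntegrableOn.congr_fun (f := fun _ => (0 : ℝ)) (by simp) _ measurableSet_Ioi
        intro t ht
        simp only [h0 t (le_of_lt ht)]
        norm_num
    · obtain ⟨hl1, hl2⟩ := hLS x ell z z1 r r1 h1 hell hr (hall z z1 h1)
      have hz0 : 0 < z1 0 := (fd x ell z z1 h1).1
      refine ⟨z1 0, hz0.le, hl1, taylor34 hK2 h1, hl2, ?_, (fa x ell z z1 h1).1, h1.int0⟩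
      intro t ht
      rcases eq_or_lt_of_le ht with h2 | h2
      · rw [← h2, h1.zero]
      · exact (h1.pos t h2).le
  obtain ⟨zS0, zScont, zSder, zSm, zSnn, zSle, zSlim⟩ := mass_facts z hzc hzi
  have hgap : ∀ t, 0 < t → Sf z t < Sf r t := by
    have hsm : StrictMonoOn (fun t => Sf r t - Sf z t) (Ici 0) := by
      apply strictMonoOn_of_deriv_pos (convex_Ici 0) (rScont.sub zScont)
      intro t ht
      rw [interior_Ici, mem_Ioi] at ht
      have hd : deriv (Sf r - Sf z) t = 4 * π * r t ^ 2 - 4 * π * z t ^ 2 :=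
        ((rSder t ht).sub (zSder t ht)).deriv
      show 0 < deriv (Sf r - Sf z) t
      rw [hd]
      have h1 := hzlt t ht
      have h2 := hznn t ht.le
      have h3 : z t ^ 2 < r t ^ 2 := by nlinarith
      have h4 : 0 < 4 * π := by positivity
      nlinarith
    intro t ht
    have := hsm (mem_Ici.2 le_rfl) (mem_Ici.2 ht.le) ht
    simp only [rS0, zS0, sub_self] at this
    linarith
  -- near zero
  set d := min (1 / 2) ((r1 0 - β) / 200) with hd
  have hdpos : 0 < d := lt_min (by norm_num) (by linarith)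
  have hd1 : d ≤ 1 / 2 := min_le_left _ _
  have hd2 : β + 137 * d ≤ r1 0 := by
    have : d ≤ (r1 0 - β) / 200 := min_le_right _ _
    linarith
  have hd01 : d ∈ Icc (0 : ℝ) 1 := ⟨hdpos.le, by linarith⟩
  have ev1 : ∀ᶠ n in atTop, ∀ t ∈ Icc (0 : ℝ) d, Sf (ss (ψ n)) t ≤ Sf r t := by
    have h1 : ∀ᶠ n in atTop, ss (ψ n) d < z d + d ^ 2 :=
      (hzlim d hdpos.le).eventually (gt_mem_nhds (by
        have : 0 < d ^ 2 := by positivity
        linarith))
    filter_upwards [h1] with n hn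
    have hEn := hE (ψ n)
    have e1 := (abs_le.1 (taylor34 hK2 hEn d hd01)).1
    have e2 := (abs_le.1 (hzβ d hd01)).2
    have e3 : s1s (ψ n) 0 * d ≤ (β + 69 * d) * d := by nlinarith
    have e4 : s1s (ψ n) 0 ≤ β + 69 * d := le_of_mul_le_mul_right e3 hdpos
    have e5 : ∀ t ∈ Icc (0 : ℝ) d, ss (ψ n) t ≤ r t := by
      intro t ht
      have ht1 : t ∈ Icc (0 : ℝ) 1 := ⟨ht.1, by linarith [ht.2]⟩
      have f1 := (abs_le.1 (taylor34 hK2 hEn t ht1)).2
      have f2 := (abs_le.1 (taylor34 hK2 hr t ht1)).1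
      have f3 : t ^ 2 ≤ d * t := by nlinarith [ht.1, ht.2]
      have f4 : s1s (ψ n) 0 * t ≤ (β + 69 * d) * t := mul_le_mul_of_nonneg_right e4 ht.1
      have f5 : (β + 137 * d) * t ≤ r1 0 * t := mul_le_mul_of_nonneg_right hd2 ht.1
      nlinarith
    intro t ht
    unfold Sf
    apply mul_le_mul_of_nonneg_left _ (by positivity)
    apply intervalIntegral.integral_mono_on ht.1
    · apply ContinuousOn.intervalIntegrable
      apply ContinuousOn.pow
      rw [uIcc_of_le ht.1]
      exact ((fa x _ _ _ hEn).1).mono Icc_subset_Ici_self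
    · apply ContinuousOn.intervalIntegrable
      apply ContinuousOn.pow
      rw [uIcc_of_le ht.1]
      exact rc.mono Icc_subset_Ici_self
    · intro τ hτ
      have g1 := e5 τ ⟨hτ.1, hτ.2.trans ht.2⟩
      have g2 : 0 ≤ ss (ψ n) τ := by
        rcases eq_or_lt_of_le hτ.1 with h2 | h2
        · rw [← h2, hEn.zero]
        · exact (hEn.pos τ h2).le
      exact pow_le_pow_left₀ g2 g1 2
  -- tail
  set R := 2 * Mf r / ell + 2 with hR
  have hR2 : 2 < R := by
    have : 0 < 2 * Mf r / ell := by positivity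
    linarith
  have hRell : Mf r / (x + R) < ell / 2 := by
    have hx := hr.x0
    rw [div_lt_iff₀ (by linarith)]
    have e1 : 2 * Mf r / ell * ell = 2 * Mf r := by field_simp
    have e2 : ell * R = 2 * Mf r + 2 * ell := by rw [hR, mul_add, mul_comm ell, e1]; ring
    have e3 : 0 ≤ ell * x := by positivity
    nlinarith
  -- middle
  have ev2 : ∀ᶠ n in atTop, ∀ t ∈ Icc d R, Sf (ss (ψ n)) t ≤ Sf r t := by
    apply IsCompact.induction_on (s := Icc d R)
      (p := fun A => ∀ᶠ n in atTop, ∀ t ∈ A, Sf (ss (ψ n)) t ≤ Sf r t) isCompact_Icc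
    · simp
    · intro A B hAB hB
      filter_upwards [hB] with n hn t ht
      exact hn t (hAB ht)
    · intro A B hA hB
      filter_upwards [hA, hB] with n hn1 hn2 t ht
      rcases ht with ht | ht
      · exact hn1 t ht
      · exact hn2 t ht
    · intro t ht
      have ht0 : 0 < t := lt_of_lt_of_le hdpos ht.1
      have hg := hgap t ht0
      set m := (Sf z t + Sf r t) / 2 with hm
      have c1 : ContinuousAt (Sf z) t := (zSder t ht0).continuousAt
      have c2 : ContinuousAt (Sf r) t := (rSder t ht0).continuousAt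
      have hv1 : ∀ᶠ u in 𝓝 t, Sf z u < m := c1.eventually (gt_mem_nhds (by rw [hm]; linarith))
      have hv2 : ∀ᶠ u in 𝓝 t, m < Sf r u := c2.eventually (lt_mem_nhds (by rw [hm]; linarith))
      obtain ⟨ε, hε, hε2⟩ := Metric.eventually_nhds_iff.1 ((hv1.and hv2).and (lt_mem_nhds ht0))
      have hu1 : dist (t + ε / 2) t < ε := by
        rw [Real.dist_eq, add_sub_cancel_left, abs_of_pos (by linarith)]; linarith
      have hw := (hε2 hu1).1.1
      refine ⟨Metric.ball t (ε / 2), mem_nhdsWithin_of_mem_nhds (Metric.ball_mem_nhds t (by linarith)), ?_⟩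
      have hev := (hSlim (t + ε / 2) (by linarith)).eventually (gt_mem_nhds hw)
      filter_upwards [hev] with n hn u hu
      have hu' : dist u t < ε := by
        have : dist u t < ε / 2 := hu
        linarith
      have hu0 : 0 < u := (hε2 hu').2
      have hu3 := (hε2 hu').1.2
      have hu4 : u ≤ t + ε / 2 := by
        have : dist u t < ε / 2 := hu
        rw [Real.dist_eq] at this
        linarith [(abs_lt.1 this).2]
      have hmn := (fa x _ _ _ (hE (ψ n))).2.2.2.2.2.2.1.monotoneOn (mem_Ici.2 hu0.le)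
        (mem_Ici.2 (hu0.le.trans hu4)) hu4
      linarith
  have ev3 : ∀ᶠ n in atTop, ss (ψ n) R < r R :=
    (hzlim R (by linarith)).eventually (gt_mem_nhds (hzlt R (by linarith)))
  have ev4 : ∀ᶠ n in atTop, ell / 2 < ells (ψ n) :=
    (hlim.comp hψ.tendsto_atTop).eventually (lt_mem_nhds (by linarith))
  obtain ⟨n, h1, h2, h3, h4⟩ := (ev1.and (ev2.and (ev3.and ev4))).exists
  refine ⟨ψ n, fun t ht => ?_⟩
  rcases le_total t d with htd | htd
  · exact h1 t ⟨ht, htd⟩
  · rcases le_total t R with htR | htR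
    · exact h2 t ⟨htd, htR⟩
    · exact hK3 x (ells (ψ n)) (ss (ψ n)) (s1s (ψ n)) r r1 R (hE _) hr (by linarith)
        (hRell.trans h4) h3 (h2 R ⟨by linarith, le_rfl⟩) t htR

end Pool.Agent.H38.HM
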