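import Pool.Agent.H38.HM.FE

/-! Modules LIP, ANTI and DINI. -/

namespace Pool.Agent.H38.HM

open MeasureTheory Set Filter Topology Real
open Pool.Agent.H99.HM

/-- the linearised kernel -/
theorem lin_kernel (hdom : T_dom) (hE1 : T_E1) {y ell : ℝ} {s s1 : ℝ → ℝ} (h : Ext y ell s s1) :
    IntegrableOn (fun t => 2 / (y + t) ^ 3 * (Sf s t - Sf s t ^ 2 / 2)) (Ioi 0) ∧
    ∫ t in Ioi (0 : ℝ), 2 / (y + t) ^ 3 * (Sf s t - Sf s t ^ 2 / 2) = 4 * π * s1 0 ^ 2 := by
  have F := facts y ell s s1 h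
  obtain ⟨c, C, hc, hC, hn⟩ := F.near0
  have hM := F.mpos
  have hSnn : ∀ t, 0 ≤ t → 0 ≤ Sf s t := by
    intro t ht
    rw [← F.S0]; exact F.Smono.monotoneOn (mem_Ici.2 le_rfl) ht ht
  have hmeas : AEStronglyMeasurable (Sf s) (volume.restrict (Ioi 0)) :=
    (F.Scont.mono Ioi_subset_Ici_self).aestronglyMeasurable measurableSet_Ioi
  have i1 : IntegrableOn (fun t => Sf s t / (y + t) ^ 3) (Ioi 0) := by
    refine (hdom y (Sf s) (C + Mf s) h.x0 hmeas ?_ ?_).2
    · intro t ht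
      have h1 := (hn t ⟨ht.1.le, ht.2⟩).2.2.2
      rw [abs_of_nonneg (hSnn t ht.1.le)]
      have h3 : 0 ≤ t ^ 3 := pow_nonneg ht.1.le 3
      nlinarith
    · intro t ht
      rw [abs_of_nonneg (hSnn t (by linarith))]
      linarith [F.Slt t (by linarith)]
  have i2 : IntegrableOn (fun t => Sf s t ^ 2 / (y + t) ^ 3) (Ioi 0) := by
    refine (hdom y (fun t => Sf s t ^ 2) (C * Mf s + Mf s ^ 2) h.x0 (hmeas.pow 2) ?_ ?_).2
    · intro t ht
      have h1 := (hn t ⟨ht.1.le, ht.2⟩).2.2.2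
      have h2 := hSnn t ht.1.le
      have h4 := F.Slt t ht.1.le
      rw [abs_of_nonneg (sq_nonneg _)]
      have h3 : 0 ≤ t ^ 3 := pow_nonneg ht.1.le 3
      have h5 : Sf s t * Sf s t ≤ C * t ^ 3 * Mf s := mul_le_mul h1 h4.le h2 (by positivity)
      have h6 : 0 ≤ Mf s ^ 2 * t ^ 3 := by positivity
      nlinarith
    · intro t ht
      have h2 := hSnn t (by linarith)
      have h4 := F.Slt t (by linarith)
      rw [abs_of_nonneg (sq_nonneg _)]
      have h6 : 0 ≤ C * Mf s := by positivity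
      nlinarith
  have e : (fun t => 2 / (y + t) ^ 3 * (Sf s t - Sf s t ^ 2 / 2)) =
      fun t => 2 * (Sf s t / (y + t) ^ 3) - Sf s t ^ 2 / (y + t) ^ 3 := by
    funext t; ring
  rw [e]
  refine ⟨(i1.const_mul 2).sub i2, ?_⟩
  rw [integral_sub (i1.const_mul 2) i2, integral_const_mul, hE1 y ell s s1 h]
  unfold Iw
  simp only [pow_one]

theorem kern_le {a b : ℝ} (ha : 0 < a) (hab : a ≤ b) :
    1 / a ^ 2 - 1 / b ^ 2 ≤ (b - a) * (2 / a ^ 3) := by
  have hb : 0 < b := lt_of_lt_of_le ha hab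
  have h1 : 1 / a ^ 2 - 1 / b ^ 2 = (b - a) * ((a + b) / (a ^ 2 * b ^ 2)) := by
    field_simp
    ring
  rw [h1]
  apply mul_le_mul_of_nonneg_left _ (by linarith)
  rw [div_le_div_iff₀ (by positivity) (by positivity)]
  have h2 : 0 ≤ a ^ 2 * (b - a) * (2 * b + a) := by
    have : 0 ≤ b - a := by linarith
    positivity
  nlinarith

/-- upper bound for the increment of the energy -/
theorem env_up (hdom : T_dom) (hE1 : T_E1) (hBL : T_BL) (henv : T_env) {y z ell : ℝ}
    {s s1 : ℝ → ℝ} (hyz : y ≤ z) (h : Ext y ell s s1) :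
    Einf z ell - Einf y ell ≤ (z - y) * (4 * π * s1 0 ^ 2) := by
  obtain ⟨i1, e1⟩ := lin_kernel hdom hE1 h
  obtain ⟨i2, e2⟩ := henv y z ell s s1 (h.x0.trans hyz) h
  have F := facts y ell s s1 h
  have hM2 := hBL y ell s s1 h
  have h3 : ∫ t in Ioi (0 : ℝ), (1 / (y + t) ^ 2 - 1 / (z + t) ^ 2) * (Sf s t - Sf s t ^ 2 / 2) ≤
      ∫ t in Ioi (0 : ℝ), (z - y) * (2 / (y + t) ^ 3 * (Sf s t - Sf s t ^ 2 / 2)) := by
    apply setIntegral_mono_on i2 (i1.const_mul (z - y)) measurableSet_Ioi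
    intro t ht
    have ht0 : (0 : ℝ) < t := ht
    have hx := h.x0
    have hk := kern_le (a := y + t) (b := z + t) (by linarith) (by linarith)
    have h4 := F.Spos t ht0
    have h5 := F.Slt t ht0.le
    have h6 : 0 ≤ Sf s t - Sf s t ^ 2 / 2 := by nlinarith
    have h7 : z + t - (y + t) = z - y := by ring
    rw [h7] at hk
    calc (1 / (y + t) ^ 2 - 1 / (z + t) ^ 2) * (Sf s t - Sf s t ^ 2 / 2)
        ≤ ((z - y) * (2 / (y + t) ^ 3)) * (Sf s t - Sf s t ^ 2 / 2) :=
          mul_le_mul_of_nonneg_right hk h6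
      _ = _ := by ring
  rw [integral_const_mul, e1] at h3
  linarith

theorem lip (hdom : T_dom) (hE1 : T_E1) (hBL : T_BL) (henv : T_env) (hK2 : T_K2)
    (heinf : T_einf) : T_lip := by
  intro ell hell
  refine ⟨4 * π * 68 ^ 2, fun y z hy hyz => ⟨?_, ?_⟩⟩
  · obtain ⟨_, _, f3, _⟩ := heinf z ell (hy.trans hyz) hell
    obtain ⟨_, _, _, g4⟩ := heinf y ell hy hell
    by_cases hz : ∃ s s1, Ext z ell s s1
    · obtain ⟨s, s1, h⟩ := hz
      obtain ⟨i, e⟩ := henv z y ell s s1 hy h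
      have F := facts z ell s s1 h
      have hM2 := hBL z ell s s1 h
      have h3 : ∫ t in Ioi (0 : ℝ), (1 / (z + t) ^ 2 - 1 / (y + t) ^ 2) *
          (Sf s t - Sf s t ^ 2 / 2) ≤ 0 := by
        apply setIntegral_nonpos measurableSet_Ioi
        intro t ht
        have ht0 : (0 : ℝ) < t := ht
        have h4 := F.Spos t ht0
        have h5 := F.Slt t ht0.le
        have h6 : 0 ≤ Sf s t - Sf s t ^ 2 / 2 := by nlinarith
        have h7 : 1 / (z + t) ^ 2 ≤ 1 / (y + t) ^ 2 := by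
          apply one_div_le_one_div_of_le (by positivity)
          apply pow_le_pow_left₀ (by linarith) (by linarith)
        exact mul_nonpos_of_nonpos_of_nonneg (by linarith) h6
      linarith
    · rw [f3 hz]; exact g4
  · obtain ⟨_, _, f3, _⟩ := heinf y ell hy hell
    obtain ⟨_, _, _, g4⟩ := heinf z ell (hy.trans hyz) hell
    by_cases hyE : ∃ s s1, Ext y ell s s1
    · obtain ⟨s, s1, h⟩ := hyE
      refine (env_up hdom hE1 hBL henv hyz h).trans ?_
      have h1 := (hK2 y ell s s1 h).2.1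
      have h2 := (fd y ell s s1 h).1
      have h3 : s1 0 ^ 2 ≤ 68 ^ 2 := pow_le_pow_left₀ h2.le h1 2
      have h4 : 0 ≤ z - y := by linarith
      have h5 : 4 * π * s1 0 ^ 2 ≤ 4 * π * 68 ^ 2 := mul_le_mul_of_nonneg_left h3 (by positivity)
      nlinarith
    · rw [f3 hyE]
      have h4 : 0 ≤ z - y := by linarith
      have h5 : 0 ≤ 4 * π * 68 ^ 2 * (z - y) := by positivity
      linarith

theorem anti (hlip : T_lip) (hdini : T_dini) : T_anti := by
  intro ell hell
  obtain ⟨C1, hC1⟩ := hlip ell hell.le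
  obtain ⟨C2, hC2⟩ := hlip 0 le_rfl
  have hcont : ∀ l, (∃ C : ℝ, ∀ y z, 0 ≤ y → y ≤ z →
      Einf y l ≤ Einf z l ∧ Einf z l - Einf y l ≤ C * (z - y)) →
      ContinuousOn (fun x => Einf x l) (Ici 0) := by
    intro l ⟨C, hC⟩
    have hl : LipschitzOnWith (Real.toNNReal C) (fun x => Einf x l) (Ici 0) := by
      apply LipschitzOnWith.of_dist_le_mul
      intro a ha b hb
      rw [Real.dist_eq, Real.dist_eq]
      have hCle : C ≤ (Real.toNNReal C : ℝ) := Real.le_coe_toNNReal C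
      rcases le_total a b with hab | hab
      · obtain ⟨h1, h2⟩ := hC a b ha hab
        rw [abs_sub_comm, abs_sub_comm a b, abs_of_nonneg (by linarith), abs_of_nonneg (by linarith)]
        exact h2.trans (mul_le_mul_of_nonneg_right hCle (by linarith))
      · obtain ⟨h1, h2⟩ := hC b a hb hab
        rw [abs_of_nonneg (by linarith), abs_of_nonneg (by linarith)]
        exact h2.trans (mul_le_mul_of_nonneg_right hCle (by linarith))
    exact hl.continuousOn
  have hc : ContinuousOn (fun x => Einf x ell - Einf x 0) (Ici 0) :=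
    (hcont ell ⟨C1, hC1⟩).sub (hcont 0 ⟨C2, hC2⟩)
  intro a ha b hb hab
  have ha0 : (0 : ℝ) ≤ a := ha
  apply image_le_of_liminf_slope_right_le_deriv_boundary
    (f := fun x => Einf x ell - Einf x 0) (a := a) (b := b)
    (B := fun _ => Einf a ell - Einf a 0) (B' := fun _ => 0)
    (hc.mono (fun t ht => mem_Ici.2 (ha0.trans ht.1))) le_rfl continuousOn_const
    (fun t _ => hasDerivWithinAt_const _ _ _) _ (right_mem_Icc.2 hab)
  intro t ht r hr
  apply Eventually.frequently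
  have h1 := hdini ell t (r / 2) hell (ha0.trans ht.1) (by linarith)
  filter_upwards [h1, self_mem_nhdsWithin] with w hw hwt
  have hwt' : t < w := hwt
  rw [slope_def_field, div_lt_iff₀ (by linarith)]
  nlinarith

end Pool.Agent.H38.HM
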