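import Pool.Agent.H38.HM.FB

/-! Module WEAK: the radial weak equation. -/

namespace Pool.Agent.H38.HM

open MeasureTheory Set Filter Topology Real
open scoped ContDiff
open Pool.Agent.H99.HM

theorem hasFDerivAt_comp_normSq {g : ℝ → ℝ} {g' : ℝ} (x : E3) (hg : HasDerivAt g g' (‖x‖ ^ 2)) :
    HasFDerivAt (fun x : E3 => g (‖x‖ ^ 2)) (g' • (2 • innerSL ℝ x)) x :=
  hg.comp_hasFDerivAt x (hasStrictFDerivAt_norm_sq x).hasFDerivAt

theorem inner_single_aux (x : E3) (i : Fin 3) :
    (innerSL ℝ x) (EuclideanSpace.single i (1 : ℝ)) = x i := by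
  rw [innerSL_apply_apply, EuclideanSpace.inner_single_right]
  simp

theorem pd_rad {q : ℝ → ℝ} (hq : ContDiff ℝ ∞ q) (i : Fin 3) :
    pd i (fun x : E3 => q (‖x‖ ^ 2)) = fun x => deriv q (‖x‖ ^ 2) * (2 * x i) := by
  funext x
  unfold pd
  have h1 : HasDerivAt q (deriv q (‖x‖ ^ 2)) (‖x‖ ^ 2) :=
    (hq.differentiable (by simp)).differentiableAt.hasDerivAt
  rw [(hasFDerivAt_comp_normSq x h1).fderiv]
  rw [smul_apply, smul_apply, inner_single_aux, smul_eq_mul, nsmul_eq_mul]
  norm_num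

theorem lap_rad {q : ℝ → ℝ} (hq : ContDiff ℝ ∞ q) (x : E3) :
    lap (fun x : E3 => q (‖x‖ ^ 2)) x =
      4 * ‖x‖ ^ 2 * deriv (deriv q) (‖x‖ ^ 2) + 6 * deriv q (‖x‖ ^ 2) := by
  have hq' : ContDiff ℝ ∞ (deriv q) := by
    have := (contDiff_infty_iff_deriv.1 hq).2
    exact this
  have h : ∀ i, pd i (pd i (fun x : E3 => q (‖x‖ ^ 2))) x =
      4 * deriv (deriv q) (‖x‖ ^ 2) * (x i) ^ 2 + 2 * deriv q (‖x‖ ^ 2) := by
    intro i
    rw [pd_rad hq i]
    have h1 : HasDerivAt (deriv q) (deriv (deriv q) (‖x‖ ^ 2)) (‖x‖ ^ 2) :=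
      (hq'.differentiable (by simp)).differentiableAt.hasDerivAt
    have h2 := hasFDerivAt_comp_normSq x h1
    have h3 : HasFDerivAt (fun x : E3 => 2 * x i)
        ((2 : ℝ) • (EuclideanSpace.proj i : E3 →L[ℝ] ℝ)) x :=
      ((EuclideanSpace.proj i : E3 →L[ℝ] ℝ).hasFDerivAt).const_mul 2
    have h4 : HasFDerivAt (fun x : E3 => deriv q (‖x‖ ^ 2) * (2 * x i)) _ x := h2.mul h3
    unfold pd
    have h5 : (EuclideanSpace.proj i : E3 →L[ℝ] ℝ) (EuclideanSpace.single i 1) = 1 := by simp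
    rw [h4.fderiv]
    simp only [add_apply, smul_apply, inner_single_aux, smul_eq_mul,
      nsmul_eq_mul, h5]
    norm_num
    ring
  unfold lap
  simp only [h]
  rw [Finset.sum_add_distrib, ← Finset.mul_sum, ← EuclideanSpace.real_norm_sq_eq]
  simp
  ring

theorem rad_cs {q : ℝ → ℝ} (hq : HasCompactSupport q) :
    HasCompactSupport (fun x : E3 => q (‖x‖ ^ 2)) := by
  obtain ⟨R, hR⟩ := hq.isCompact.isBounded.subset_closedBall (0 : ℝ)
  apply HasCompactSupport.of_support_subset_isCompact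
    (isCompact_closedBall (0 : E3) (|R| + 1))
  intro x hx
  rw [Function.mem_support] at hx
  have h1 : ‖x‖ ^ 2 ∈ Metric.closedBall (0 : ℝ) R := hR (subset_tsupport _ hx)
  rw [mem_closedBall_zero_iff, Real.norm_eq_abs, abs_of_nonneg (by positivity)] at h1
  rw [mem_closedBall_zero_iff]
  have h2 := le_abs_self R
  by_contra h3
  push Not at h3
  have h4 := abs_nonneg R
  nlinarith

/-- a bounded function with bounded support times an `L²` function is integrable -/
theorem intOn_of_bdd {s : ℝ → ℂ} (hs : MemLp s 2 (volume.restrict (Ioi (0 : ℝ)))) {w : ℝ → ℝ}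
    (hw : AEStronglyMeasurable w (volume.restrict (Ioi (0 : ℝ)))) {R C : ℝ}
    (h0 : ∀ r, R < r → w r = 0) (hC : ∀ r, 0 < r → |w r| ≤ C) :
    IntegrableOn (fun r => (w r : ℂ) * s r) (Ioi 0) := by
  have hC0 : 0 ≤ C := (abs_nonneg _).trans (hC 1 one_pos)
  have hw2 : MemLp (fun r => (w r : ℂ)) 2 (volume.restrict (Ioi (0 : ℝ))) := by
    have hb : MemLp ((Ioc 0 R).indicator (fun _ : ℝ => C)) 2 (volume.restrict (Ioi (0 : ℝ))) := by
      apply memLp_indicator_const 2 measurableSet_Ioc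
      right
      rw [Measure.restrict_apply measurableSet_Ioc]
      exact ((measure_mono inter_subset_left).trans_lt measure_Ioc_lt_top).ne
    refine hb.of_le (Complex.continuous_ofReal.comp_aestronglyMeasurable hw) ?_
    rw [ae_restrict_iff' measurableSet_Ioi]
    refine Filter.Eventually.of_forall (fun r hr => ?_)
    have hr0 : (0 : ℝ) < r := hr
    by_cases h1 : r ≤ R
    · rw [indicator_of_mem (show r ∈ Ioc 0 R from ⟨hr0, h1⟩), Complex.norm_real,
        Real.norm_eq_abs, Real.norm_eq_abs, abs_of_nonneg hC0]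
      exact hC r hr0
    · rw [h0 r (not_le.1 h1)]
      simp
  exact hw2.integrable_mul hs

theorem weak (hpolar : T_polar) (hradm : T_radm) (hnewton : T_newton) : T_weak := by
  intro u lam f hsol hrad q hq hqc
  obtain ⟨⟨G, hG⟩, heq⟩ := hsol
  have hu := hG.memLp
  obtain ⟨hs, hmass⟩ := hradm u f hu hrad
  set s : ℝ → ℂ := fun r => (r : ℂ) * f r with hsdef
  -- test function
  have hq1 : ContDiff ℝ ∞ (deriv q) := (contDiff_infty_iff_deriv.1 hq).2
  have hq2 : ContDiff ℝ ∞ (deriv (deriv q)) := (contDiff_infty_iff_deriv.1 hq1).2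
  have hΦs : ContDiff ℝ ∞ (fun x : E3 => q (‖x‖ ^ 2)) := hq.comp (contDiff_norm_sq ℝ)
  have hΦ : IsTest (fun x : E3 => q (‖x‖ ^ 2)) := ⟨hΦs, rad_cs hqc⟩
  have hE := heq _ hΦ
  -- support and bounds of q
  obtain ⟨R0, hR0⟩ := hqc.isCompact.isBounded.subset_closedBall (0 : ℝ)
  set R := |R0| + 1 with hR
  have hR1 : 1 ≤ R := by rw [hR]; linarith [abs_nonneg R0]
  have hsupp : ∀ g : ℝ → ℝ, tsupport g ⊆ tsupport q → ∀ r, R < r → g (r ^ 2) = 0 := by
    intro g hg r hr
    by_contra h1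
    have h2 : r ^ 2 ∈ Metric.closedBall (0 : ℝ) R0 := hR0 (hg (subset_tsupport _ h1))
    rw [mem_closedBall_zero_iff, Real.norm_eq_abs, abs_of_nonneg (by positivity)] at h2
    have h3 := le_abs_self R0
    nlinarith
  have ht1 : tsupport (deriv q) ⊆ tsupport q := tsupport_deriv_subset
  have ht2 : tsupport (deriv (deriv q)) ⊆ tsupport q := tsupport_deriv_subset.trans ht1
  have z0 := hsupp q subset_rfl
  have z1 := hsupp (deriv q) ht1
  have z2 := hsupp (deriv (deriv q)) ht2
  obtain ⟨C0, hC0⟩ := hq.continuous.bounded_above_of_compact_support hqc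
  -- potential
  set S : ℝ → ℝ := Sf (rf f) with hS
  set M : ℝ := Mf (rf f) with hM
  have hrfi : IntegrableOn (fun r => rf f r ^ 2) (Ioi 0) := by
    have h1 := hs.integrable_norm_pow (p := 2) two_ne_zero
    have h2 : Integrable (fun x => ‖s x‖ ^ 2) (volume.restrict (Ioi 0)) := by simpa using h1
    exact h2
  have hSnn : ∀ t, 0 ≤ t → 0 ≤ S t := by
    intro t ht
    rw [hS]
    unfold Sf
    apply mul_nonneg (by positivity)
    exact intervalIntegral.integral_nonneg ht (fun _ _ => sq_nonneg _)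
  have hSM : ∀ t, 0 ≤ t → S t ≤ M := by
    intro t ht
    rw [hS, hM]
    unfold Sf Mf
    apply mul_le_mul_of_nonneg_left _ (by positivity)
    rw [intervalIntegral.integral_of_le ht]
    exact setIntegral_mono_set hrfi (Filter.Eventually.of_forall fun _ => sq_nonneg _)
      Ioc_subset_Ioi_self.eventuallyLE
  have hM0 : 0 ≤ M := (hSnn 0 le_rfl).trans (hSM 0 le_rfl)
  set H : ℝ → ℝ := fun r => ∫ t in Ioi r, S t / t ^ 2 with hH
  -- integrability on each Ioi r
  have hpt : ∀ r : ℝ, 0 < r → ∃ x : E3, x ≠ 0 ∧ ‖x‖ = r := by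
    intro r hr
    have h1 : ‖(EuclideanSpace.single 0 r : E3)‖ = r := by
      rw [PiLp.norm_single, Real.norm_eq_abs, abs_of_pos hr]
    exact ⟨EuclideanSpace.single 0 r, fun h => by rw [h, norm_zero] at h1; linarith, h1⟩
  have hSint : ∀ r : ℝ, 0 < r → IntegrableOn (fun t => S t / t ^ 2) (Ioi r) := by
    intro r hr
    obtain ⟨x, hx0, hx⟩ := hpt r hr
    have := (hnewton u f hu hrad x hx0).2.1
    rwa [hx] at this
  have hinv : ∀ r : ℝ, 0 < r → IntegrableOn (fun t => 1 / t ^ 2) (Ioi r) ∧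
      ∫ t in Ioi r, 1 / t ^ 2 = 1 / r := by
    intro r hr
    have := int_inv_sq (x := 0) (t := r) (by linarith)
    simpa using this
  have hphi : ∀ r : ℝ, 0 < r → phi 0 (rf f) r = 1 / r - H r := by
    intro r hr
    unfold phi
    have e : ∀ t : ℝ, (1 - Sf (rf f) t) / (0 + t) ^ 2 = 1 / t ^ 2 - S t / t ^ 2 := by
      intro t; rw [zero_add, sub_div]
    simp only [e]
    rw [integral_sub (hinv r hr).1 (hSint r hr), (hinv r hr).2]
  have hHnn : ∀ r : ℝ, 0 < r → 0 ≤ H r := by
    intro r hr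
    apply setIntegral_nonneg measurableSet_Ioi
    intro t ht
    have : 0 < t := lt_trans hr ht
    exact div_nonneg (hSnn t this.le) (by positivity)
  have hHle : ∀ r : ℝ, 0 < r → H r ≤ M / r := by
    intro r hr
    have h1 : H r ≤ ∫ t in Ioi r, M * (1 / t ^ 2) := by
      apply setIntegral_mono_on (hSint r hr) ((hinv r hr).1.const_mul M) measurableSet_Ioi
      intro t ht
      have : 0 < t := lt_trans hr ht
      rw [mul_one_div]
      exact div_le_div_of_nonneg_right (hSM t this.le) (by positivity)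
    rw [integral_const_mul, (hinv r hr).2, mul_one_div] at h1
    exact h1
  have hHanti : AntitoneOn H (Ioi 0) := by
    intro a ha b hb hab
    apply setIntegral_mono_set (hSint a ha) _ (Ioi_subset_Ioi hab).eventuallyLE
    have : 0 ≤ᵐ[volume.restrict (Ioi a)] fun t => S t / t ^ 2 := by
      rw [Filter.EventuallyLE, ae_restrict_iff' measurableSet_Ioi]
      refine Filter.Eventually.of_forall (fun t ht => ?_)
      have h1 : 0 < t := lt_trans ha ht
      exact div_nonneg (hSnn t h1.le) (by positivity)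
    exact this
  have hHmeas : AEStronglyMeasurable H (volume.restrict (Ioi (0 : ℝ))) :=
    (aemeasurable_restrict_of_antitoneOn measurableSet_Ioi hHanti).aestronglyMeasurable
  -- the four radial functions
  set w1 : ℝ → ℝ := fun r => 4 * r ^ 3 * deriv (deriv q) (r ^ 2) + 6 * r * deriv q (r ^ 2) with hw1
  set w2 : ℝ → ℝ := fun r => q (r ^ 2) with hw2
  set w3 : ℝ → ℝ := fun r => r * H r * q (r ^ 2) with hw3
  set w4 : ℝ → ℝ := fun r => r * q (r ^ 2) with hw4
  have cont1 : Continuous w1 := by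
    have := hq2.continuous
    have := hq1.continuous
    fun_prop
  have cont2 : Continuous w2 := by
    have := hq.continuous
    fun_prop
  have cont4 : Continuous w4 := by
    have := hq.continuous
    fun_prop
  have bd : ∀ w : ℝ → ℝ, Continuous w → (∀ r, R < r → w r = 0) → ∃ C, ∀ r, 0 < r → |w r| ≤ C := by
    intro w hw hw0
    obtain ⟨C, hC⟩ := (isCompact_Icc (a := (0 : ℝ)) (b := R)).exists_bound_of_continuousOn
      hw.continuousOn
    refine ⟨C, fun r hr => ?_⟩
    by_cases h1 : r ≤ R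
    · have := hC r ⟨hr.le, h1⟩
      rwa [Real.norm_eq_abs] at this
    · rw [hw0 r (not_le.1 h1), abs_zero]
      exact (norm_nonneg _).trans (hC 0 ⟨le_rfl, by linarith⟩)
  have zw1 : ∀ r, R < r → w1 r = 0 := fun r hr => by simp only [hw1, z1 r hr, z2 r hr]; ring
  have zw2 : ∀ r, R < r → w2 r = 0 := fun r hr => z0 r hr
  have zw4 : ∀ r, R < r → w4 r = 0 := fun r hr => by simp only [hw4, z0 r hr]; ring
  have zw3 : ∀ r, R < r → w3 r = 0 := fun r hr => by simp only [hw3, z0 r hr]; ring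
  obtain ⟨B1, hB1⟩ := bd w1 cont1 zw1
  obtain ⟨B2, hB2⟩ := bd w2 cont2 zw2
  obtain ⟨B4, hB4⟩ := bd w4 cont4 zw4
  have hB3 : ∀ r, 0 < r → |w3 r| ≤ M * C0 := by
    intro r hr
    have h1 := hC0 (r ^ 2)
    rw [Real.norm_eq_abs] at h1
    have h2 : 0 ≤ r * H r := mul_nonneg hr.le (hHnn r hr)
    have h3 : r * H r ≤ M := by
      have := mul_le_mul_of_nonneg_left (hHle r hr) hr.le
      rwa [mul_div_cancel₀ _ hr.ne'] at this
    simp only [hw3]
    rw [abs_mul, abs_of_nonneg h2]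
    exact mul_le_mul h3 h1 (abs_nonneg _) hM0
  have meas3 : AEStronglyMeasurable w3 (volume.restrict (Ioi (0 : ℝ))) := by
    have c : Continuous (fun r : ℝ => r * q (r ^ 2)) := cont4
    have := hHmeas.mul c.aestronglyMeasurable
    refine this.congr (Filter.Eventually.of_forall fun r => ?_)
    simp only [hw3, Pi.mul_apply]
    ring
  have I1 := intOn_of_bdd hs cont1.aestronglyMeasurable zw1 hB1
  have I2 := intOn_of_bdd hs cont2.aestronglyMeasurable zw2 hB2
  have I3 := intOn_of_bdd hs meas3 zw3 hB3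
  have I4 := intOn_of_bdd hs cont4.aestronglyMeasurable zw4 hB4
  -- convert the four integrals
  have hne : ∀ᵐ x : E3, x ≠ 0 := by
    rw [ae_iff]
    simp
  have P := hpolar.1
  have J1 : ∫ x : E3, (-(lap (fun x : E3 => q (‖x‖ ^ 2)) x) : ℂ) * u x =
      4 * (π : ℂ) * ∫ r in Ioi (0 : ℝ), -((w1 r : ℂ) * s r) := by
    set F : ℝ → ℂ := fun r : ℝ =>
      (-((4 * r ^ 2 * deriv (deriv q) (r ^ 2) + 6 * deriv q (r ^ 2) : ℝ) : ℂ)) * f r with hF
    refine (integral_congr_ae (g := fun x : E3 => F ‖x‖) ?_).trans ((P F).2.trans ?_)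
    rotate_left
    · congr 1
      apply integral_congr_ae
      refine Filter.Eventually.of_forall (fun r => ?_)
      simp only [hF, hw1, hsdef]
      push_cast
      ring
    · filter_upwards [hrad] with x hx
      simp only [hF]
      rw [lap_rad hq, hx]
  have J2 : ∫ x : E3, ((q (‖x‖ ^ 2) / ‖x‖ : ℝ) : ℂ) * u x =
      4 * (π : ℂ) * ∫ r in Ioi (0 : ℝ), ((w2 r : ℂ) * s r) := by
    set F : ℝ → ℂ := fun r : ℝ => ((q (r ^ 2) / r : ℝ) : ℂ) * f r with hF
    refine (integral_congr_ae (g := fun x : E3 => F ‖x‖) ?_).trans ((P F).2.trans ?_)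
    rotate_left
    · congr 1
      apply setIntegral_congr_fun measurableSet_Ioi
      intro r hr
      have hr0 : (r : ℂ) ≠ 0 := by
        have : (0 : ℝ) < r := hr
        exact_mod_cast this.ne'
      simp only [hF, hw2, hsdef]
      push_cast
      field_simp
    · filter_upwards [hrad] with x hx
      simp only [hF, hx]
  have J3 : ∫ x : E3, ((hartree u x * q (‖x‖ ^ 2) : ℝ) : ℂ) * u x =
      4 * (π : ℂ) * ∫ r in Ioi (0 : ℝ), ((w3 r : ℂ) * s r) := by
    set F : ℝ → ℂ := fun r : ℝ => ((H r * q (r ^ 2) : ℝ) : ℂ) * f r with hF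
    refine (integral_congr_ae (g := fun x : E3 => F ‖x‖) ?_).trans ((P F).2.trans ?_)
    rotate_left
    · congr 1
      apply integral_congr_ae
      refine Filter.Eventually.of_forall (fun r => ?_)
      simp only [hF, hw3, hsdef]
      push_cast
      ring
    · filter_upwards [hrad, hne] with x hx hx0
      simp only [hF]
      rw [hx, (hnewton u f hu hrad x hx0).2.2]
  have J4 : ∫ x : E3, ((q (‖x‖ ^ 2) : ℝ) : ℂ) * u x =
      4 * (π : ℂ) * ∫ r in Ioi (0 : ℝ), ((w4 r : ℂ) * s r) := by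
    set F : ℝ → ℂ := fun r : ℝ => ((q (r ^ 2) : ℝ) : ℂ) * f r with hF
    refine (integral_congr_ae (g := fun x : E3 => F ‖x‖) ?_).trans ((P F).2.trans ?_)
    rotate_left
    · congr 1
      apply integral_congr_ae
      refine Filter.Eventually.of_forall (fun r => ?_)
      simp only [hF, hw4, hsdef]
      push_cast
      ring
    · filter_upwards [hrad] with x hx
      simp only [hF, hx]
  rw [J1, J2, J3, J4, integral_neg] at hE
  -- final combination
  have hfin : ∫ r in Ioi (0 : ℝ), ((4 * r ^ 3 * deriv (deriv q) (r ^ 2) + 6 * r * deriv q (r ^ 2)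
      + (phi 0 (rf f) r + lam) * (r * q (r ^ 2)) : ℝ) : ℂ) * ((r : ℂ) * f r) =
      (∫ r in Ioi (0 : ℝ), ((w1 r : ℂ) * s r)) + (∫ r in Ioi (0 : ℝ), ((w2 r : ℂ) * s r)) -
      (∫ r in Ioi (0 : ℝ), ((w3 r : ℂ) * s r)) +
      (lam : ℂ) * (∫ r in Ioi (0 : ℝ), ((w4 r : ℂ) * s r)) := by
    have I12 : IntegrableOn (fun r => (w1 r : ℂ) * s r + (w2 r : ℂ) * s r) (Ioi 0) := I1.add I2
    have I123 : IntegrableOn (fun r => (w1 r : ℂ) * s r + (w2 r : ℂ) * s r - (w3 r : ℂ) * s r)
      (Ioi 0) := I12.sub I3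
    rw [← integral_const_mul, ← integral_add I1 I2, ← integral_sub I12 I3,
      ← integral_add I123 (I4.const_mul _)]
    apply setIntegral_congr_fun measurableSet_Ioi
    intro r hr
    have hr' : (0 : ℝ) < r := hr
    have hr0 : (r : ℂ) ≠ 0 := by exact_mod_cast hr'.ne'
    simp only [hw1, hw2, hw3, hw4, hsdef, hphi r hr']
    push_cast
    field_simp
    ring
  rw [hfin]
  have h4 : (4 * (π : ℂ)) ≠ 0 := by
    have : (π : ℂ) ≠ 0 := by exact_mod_cast Real.pi_ne_zero
    simp [this]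
  apply mul_left_cancel₀ h4
  linear_combination -hE

end Pool.Agent.H38.HM
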