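import Pool.Agent.H99.HM.Targets

/-! Module FA: basic facts on exterior solutions, and the mass function of a continuous function. -/

namespace Pool.Agent.H38.HM

open MeasureTheory Set Filter Topology Real
open Pool.Agent.H99.HM

/-- Facts about the mass function of a continuous square integrable function. -/
theorem mass_facts (v : ℝ → ℝ) (hc : ContinuousOn v (Ici 0))
    (hi : IntegrableOn (fun t => v t ^ 2) (Ioi 0)) :
    Sf v 0 = 0 ∧ ContinuousOn (Sf v) (Ici 0) ∧
    (∀ t, 0 < t → HasDerivAt (Sf v) (4 * π * v t ^ 2) t) ∧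
    MonotoneOn (Sf v) (Ici 0) ∧ (∀ t, 0 ≤ t → 0 ≤ Sf v t) ∧
    (∀ t, 0 ≤ t → Sf v t ≤ Mf v) ∧ Tendsto (Sf v) atTop (𝓝 (Mf v)) := by
  have hc2 : ContinuousOn (fun t => v t ^ 2) (Ici 0) := hc.pow 2
  have hii : ∀ a b : ℝ, 0 ≤ a → 0 ≤ b → IntervalIntegrable (fun t => v t ^ 2) volume a b := by
    intro a b ha hb
    apply ContinuousOn.intervalIntegrable
    apply hc2.mono
    intro t ht
    rw [mem_Ici]
    exact le_trans (le_inf ha hb) ht.1
  have h0 : Sf v 0 = 0 := by simp [Sf]
  have hcont : ContinuousOn (Sf v) (Ici 0) := by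
    intro t ht
    have ht' : (0 : ℝ) ≤ t := ht
    have h1 : ContinuousOn (fun x => ∫ τ in (0 : ℝ)..x, v τ ^ 2) (uIcc 0 (t + 1)) := by
      apply intervalIntegral.continuousOn_primitive_interval
      apply ContinuousOn.integrableOn_compact isCompact_uIcc
      apply hc2.mono
      rw [uIcc_of_le (by linarith)]
      exact Icc_subset_Ici_self
    have h2 : ContinuousWithinAt (fun x => 4 * π * ∫ τ in (0 : ℝ)..x, v τ ^ 2)
        (uIcc 0 (t + 1)) t :=
      ((h1 t (by rw [uIcc_of_le (by linarith)]; exact ⟨ht', by linarith⟩)).const_mul (4 * π))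
    rw [uIcc_of_le (by linarith)] at h2
    apply h2.mono_of_mem_nhdsWithin
    have : Icc (0 : ℝ) (t + 1) = Ici 0 ∩ Iic (t + 1) := by ext y; simp
    rw [this]
    exact inter_mem_nhdsWithin _ (Iic_mem_nhds (by linarith))
  have hder : ∀ t, 0 < t → HasDerivAt (Sf v) (4 * π * v t ^ 2) t := by
    intro t ht
    unfold Sf
    apply HasDerivAt.const_mul
    apply intervalIntegral.integral_hasDerivAt_right (hii 0 t le_rfl ht.le)
    · exact (hc2.mono Ioi_subset_Ici_self).stronglyMeasurableAtFilter isOpen_Ioi t ht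
    · exact (hc2.mono Ioi_subset_Ici_self).continuousAt (Ioi_mem_nhds ht)
  have hmono : MonotoneOn (Sf v) (Ici 0) := by
    intro a ha b hb hab
    unfold Sf
    apply mul_le_mul_of_nonneg_left _ (by positivity)
    apply intervalIntegral.integral_mono_interval le_rfl ha hab
    · exact Filter.Eventually.of_forall (fun t => sq_nonneg _)
    · exact hii 0 b le_rfl hb
  have hnn : ∀ t, 0 ≤ t → 0 ≤ Sf v t := by
    intro t ht
    rw [← h0]
    exact hmono (mem_Ici.2 le_rfl) ht ht
  have hlim : Tendsto (Sf v) atTop (𝓝 (Mf v)) := by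
    unfold Sf Mf
    apply Tendsto.const_mul
    exact intervalIntegral_tendsto_integral_Ioi 0 hi tendsto_id
  have hle : ∀ t, 0 ≤ t → Sf v t ≤ Mf v := by
    intro t ht
    apply ge_of_tendsto hlim
    filter_upwards [eventually_ge_atTop t] with u hu
    exact hmono ht (le_trans ht hu) hu
  exact ⟨h0, hcont, hder, hmono, hnn, hle, hlim⟩

theorem fa : T_fa := by
  intro x ell s s1 h
  have hc : ContinuousOn s (Ici 0) := by
    intro t ht
    rcases eq_or_lt_of_le (mem_Ici.1 ht) with h0 | h0
    · rw [← h0]; exact h.der0.continuousWithinAt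
    · exact (h.der t h0).continuousAt.continuousWithinAt
  have hV : ∀ t, 0 ≤ t → Vg s1 t = s t := by
    intro t ht
    unfold Vg
    have := intervalIntegral.integral_eq_sub_of_hasDerivAt_of_le ht (hc.mono Icc_subset_Ici_self)
      (fun r hr => h.der r hr.1)
      ((h.cont1.mono (by rw [uIcc_of_le ht]; exact Icc_subset_Ici_self)).intervalIntegrable)
    rw [this, h.zero, sub_zero]
  obtain ⟨h0, hcont, hder, hmono, hnn, hle, hlim⟩ := mass_facts s hc h.int0
  have hsm : StrictMonoOn (Sf s) (Ici 0) := by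
    apply strictMonoOn_of_deriv_pos (convex_Ici 0) hcont
    intro t ht
    rw [interior_Ici, mem_Ioi] at ht
    rw [(hder t ht).deriv]
    have := h.pos t ht
    positivity
  have hpos : ∀ t, 0 < t → 0 < Sf s t := by
    intro t ht
    rw [← h0]
    exact hsm (mem_Ici.2 le_rfl) (mem_Ici.2 ht.le) ht
  have hlt : ∀ t, 0 ≤ t → Sf s t < Mf s := by
    intro t ht
    calc Sf s t < Sf s (t + 1) := hsm ht (mem_Ici.2 (by linarith)) (by linarith)
      _ ≤ Mf s := hle _ (by linarith)
  exact ⟨hc, lt_of_le_of_lt (hnn 0 le_rfl) (hlt 0 le_rfl), hV, h0, hcont, hder, hsm, hpos, hlt, hlim⟩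

end Pool.Agent.H38.HM
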