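import Pool.Agent.H38.HM.FA

/-! Module FB: basic facts on the potential. -/

namespace Pool.Agent.H38.HM

open MeasureTheory Set Filter Topology Real
open Pool.Agent.H99.HM

/-- `∫_t^∞ 1/(x+τ)² = 1/(x+t)` -/
theorem int_inv_sq {x t : ℝ} (ht : 0 < x + t) :
    IntegrableOn (fun τ => 1 / (x + τ) ^ 2) (Ioi t) ∧ ∫ τ in Ioi t, 1 / (x + τ) ^ 2 = 1 / (x + t) := by
  have hd : ∀ τ ∈ Ici t, HasDerivAt (fun τ => -(1 / (x + τ))) (1 / (x + τ) ^ 2) τ := by
    intro τ hτ
    have h1 : x + τ ≠ 0 := by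
      have : t ≤ τ := hτ
      linarith
    have h2 : HasDerivAt (fun τ => x + τ) 1 τ := (hasDerivAt_id τ).const_add x
    have h3 := (h2.inv h1).neg
    have h4 : (fun τ => -(1 / (x + τ))) = fun τ => -(x + τ)⁻¹ := by
      funext y; rw [one_div]
    rw [h4, show 1 / (x + τ) ^ 2 = -(-1 / (x + τ) ^ 2) by ring]
    exact h3
  have hlim : Tendsto (fun τ => -(1 / (x + τ))) atTop (𝓝 0) := by
    have h1 : Tendsto (fun τ : ℝ => x + τ) atTop atTop := tendsto_atTop_add_const_left _ _ tendsto_id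
    have h2 := (h1.inv_tendsto_atTop).neg
    simpa [one_div] using h2
  have hnn : ∀ τ ∈ Ioi t, (0 : ℝ) ≤ 1 / (x + τ) ^ 2 := fun τ _ => by positivity
  refine ⟨integrableOn_Ioi_deriv_of_nonneg' hd hnn hlim, ?_⟩
  rw [integral_Ioi_of_hasDerivAt_of_nonneg' hd hnn hlim]
  ring

/-- Facts on the potential of a density with bounded mass function. -/
theorem phi_facts (x : ℝ) (hx : 0 ≤ x) (v : ℝ → ℝ) (M : ℝ) (hcont : ContinuousOn (Sf v) (Ici 0))
    (hmono : MonotoneOn (Sf v) (Ici 0)) (hnn : ∀ t, 0 ≤ t → 0 ≤ Sf v t)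
    (hle : ∀ t, 0 ≤ t → Sf v t ≤ M) :
    (∀ t, 0 < t → IntegrableOn (fun τ => (1 - Sf v τ) / (x + τ) ^ 2) (Ioi t)) ∧
    (∀ t, 0 < t → HasDerivAt (phi x v) (-((1 - Sf v t) / (x + t) ^ 2)) t) ∧
    (∀ t, 0 < t → |phi x v t| ≤ (1 + M) / (x + t)) ∧
    (∀ t, 0 < t → phi x v t ≤ (1 - Sf v t) / (x + t)) ∧
    Tendsto (phi x v) atTop (𝓝 0) := by
  have hM : 0 ≤ M := le_trans (hnn 0 le_rfl) (hle 0 le_rfl)
  have hc : ContinuousOn (fun τ => (1 - Sf v τ) / (x + τ) ^ 2) (Ioi 0) := by
    apply ContinuousOn.div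
    · exact continuousOn_const.sub (hcont.mono Ioi_subset_Ici_self)
    · fun_prop
    · intro τ hτ
      have : (0 : ℝ) < τ := hτ
      positivity
  have hb : ∀ τ, 0 < τ → |(1 - Sf v τ) / (x + τ) ^ 2| ≤ (1 + M) * (1 / (x + τ) ^ 2) := by
    intro τ hτ
    rw [abs_div, abs_of_nonneg (sq_nonneg (x + τ)), mul_one_div]
    apply div_le_div_of_nonneg_right _ (sq_nonneg _)
    rw [abs_le]
    constructor
    · linarith [hle τ hτ.le]
    · linarith [hnn τ hτ.le]
  have hint : ∀ t, 0 < t → IntegrableOn (fun τ => (1 - Sf v τ) / (x + τ) ^ 2) (Ioi t) := by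
    intro t ht
    have h1 := (int_inv_sq (x := x) (t := t) (by linarith)).1.const_mul (1 + M)
    apply Integrable.mono' h1
    · exact (hc.mono (Ioi_subset_Ioi ht.le)).aestronglyMeasurable measurableSet_Ioi
    · rw [ae_restrict_iff' measurableSet_Ioi]
      exact Filter.Eventually.of_forall (fun τ hτ => hb τ (lt_trans ht hτ))
  have hbd : ∀ t, 0 < t → |phi x v t| ≤ (1 + M) / (x + t) := by
    intro t ht
    unfold phi
    have h1 := (int_inv_sq (x := x) (t := t) (by linarith)).1.const_mul (1 + M)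
    have h2 := norm_integral_le_of_norm_le (μ := volume.restrict (Ioi t))
      (f := fun τ => (1 - Sf v τ) / (x + τ) ^ 2) h1 (by
      rw [ae_restrict_iff' measurableSet_Ioi]
      exact Filter.Eventually.of_forall (fun τ hτ => hb τ (lt_trans ht hτ)))
    rw [Real.norm_eq_abs] at h2
    refine h2.trans ?_
    rw [integral_const_mul, (int_inv_sq (x := x) (t := t) (by linarith)).2, mul_one_div]
  have hup : ∀ t, 0 < t → phi x v t ≤ (1 - Sf v t) / (x + t) := by
    intro t ht
    unfold phi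
    have h1 := (int_inv_sq (x := x) (t := t) (by linarith)).1.const_mul (1 - Sf v t)
    have h2 : ∫ τ in Ioi t, (1 - Sf v τ) / (x + τ) ^ 2 ≤
        ∫ τ in Ioi t, (1 - Sf v t) * (1 / (x + τ) ^ 2) := by
      apply setIntegral_mono_on (hint t ht) h1 measurableSet_Ioi
      intro τ hτ
      rw [mul_one_div]
      apply div_le_div_of_nonneg_right _ (sq_nonneg _)
      have := hmono (mem_Ici.2 ht.le) (mem_Ici.2 (lt_trans ht hτ).le) (le_of_lt hτ)
      linarith
    refine h2.trans ?_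
    rw [integral_const_mul, (int_inv_sq (x := x) (t := t) (by linarith)).2, mul_one_div]
  have hder : ∀ t, 0 < t → HasDerivAt (phi x v) (-((1 - Sf v t) / (x + t) ^ 2)) t := by
    intro t ht
    have ht2 : 0 < t / 2 := by linarith
    have h1 : HasDerivAt (fun u => phi x v (t / 2) -
        ∫ τ in (t / 2)..u, (1 - Sf v τ) / (x + τ) ^ 2) (-((1 - Sf v t) / (x + t) ^ 2)) t := by
      apply HasDerivAt.const_sub
      apply intervalIntegral.integral_hasDerivAt_right
      · rw [intervalIntegrable_iff_integrableOn_Ioc_of_le (by linarith)]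
        exact (hint (t / 2) ht2).mono_set Ioc_subset_Ioi_self
      · exact hc.stronglyMeasurableAtFilter isOpen_Ioi t ht
      · exact hc.continuousAt (Ioi_mem_nhds ht)
    apply h1.congr_of_eventuallyEq
    filter_upwards [Ioi_mem_nhds (show t / 2 < t by linarith)] with u hu
    unfold phi
    have h3 := intervalIntegral.integral_Ioi_sub_Ioi (hint (t / 2) ht2) (le_of_lt hu)
    rw [← h3]
    ring
  refine ⟨hint, hder, hbd, hup, ?_⟩
  have hz : Tendsto (fun t => (1 + M) / (x + t)) atTop (𝓝 0) := by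
    apply Tendsto.const_div_atTop
    exact tendsto_atTop_add_const_left _ _ tendsto_id
  apply squeeze_zero_norm' _ hz
  filter_upwards [eventually_gt_atTop 0] with t ht
  exact hbd t ht

theorem fb : T_fb := by
  intro x ell s s1 h
  obtain ⟨hc, hM, hV, h0, hcont, hder, hsm, hpos, hlt, hlim⟩ := fa x ell s s1 h
  exact phi_facts x h.x0 s (Mf s) hcont hsm.monotoneOn
    (fun t ht => by rw [← h0]; exact hsm.monotoneOn (mem_Ici.2 le_rfl) ht ht)
    (fun t ht => (hlt t ht).le)

end Pool.Agent.H38.HM
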