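import Pool.Agent.H38.HM.FB

/-! Module FC: decay at infinity. -/

namespace Pool.Agent.H38.HM

open MeasureTheory Set Filter Topology Real
open Pool.Agent.H99.HM

theorem tendsto_zero_of_sq {f : ℝ → ℝ} (h : Tendsto (fun t => f t ^ 2) atTop (𝓝 0)) :
    Tendsto f atTop (𝓝 0) := by
  have h1 : Tendsto (fun t => Real.sqrt (f t ^ 2)) atTop (𝓝 (Real.sqrt 0)) :=
    (Real.continuous_sqrt.tendsto 0).comp h
  rw [Real.sqrt_zero] at h1
  rw [tendsto_zero_iff_abs_tendsto_zero]
  apply h1.congr
  intro t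
  rw [Real.sqrt_sq_eq_abs]
  rfl

/-- if `q ≥ 0` is integrable at infinity then `T q(T) → 0` along a sequence -/
theorem exists_seq {q : ℝ → ℝ} (hq : ∀ t, 0 ≤ q t) (hi : IntegrableOn q (Ioi 1)) :
    ∃ T : ℕ → ℝ, (∀ n, 0 < T n) ∧ Tendsto T atTop atTop ∧
    Tendsto (fun n => T n * q (T n)) atTop (𝓝 0) := by
  have key : ∀ n : ℕ, ∃ t : ℝ, (n : ℝ) + 1 < t ∧ t * q t < 1 / ((n : ℝ) + 1) := by
    intro n
    by_contra hcon
    push Not at hcon
    have hn : (0 : ℝ) < (n : ℝ) + 1 := by positivity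
    have h1 : IntegrableOn (fun t : ℝ => ((n : ℝ) + 1) * q t) (Ioi ((n : ℝ) + 1)) :=
      (hi.mono_set (Ioi_subset_Ioi (by linarith [(Nat.cast_nonneg n : (0:ℝ) ≤ n)]))).const_mul _
    have h2 : IntegrableOn (fun t : ℝ => t⁻¹) (Ioi ((n : ℝ) + 1)) := by
      apply Integrable.mono' h1
      · exact (ContinuousOn.inv₀ continuousOn_id (fun t ht => by
          have : (n : ℝ) + 1 < t := ht
          have : 0 < t := by linarith
          exact this.ne')).aestronglyMeasurable measurableSet_Ioi
      · rw [ae_restrict_iff' measurableSet_Ioi]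
        refine Filter.Eventually.of_forall (fun t ht => ?_)
        have ht' : (n : ℝ) + 1 < t := ht
        have htp : 0 < t := by linarith
        have h3 := hcon t ht'
        rw [Real.norm_eq_abs, abs_of_pos (inv_pos.2 htp)]
        rw [div_le_iff₀ hn] at h3
        rw [inv_le_iff_one_le_mul₀ htp]
        nlinarith
    exact not_integrableOn_Ioi_inv h2
  choose T hT1 hT2 using key
  have hpos : ∀ n, 0 < T n := fun n => by
    have := hT1 n
    have h2 : (0 : ℝ) ≤ n := Nat.cast_nonneg n
    linarith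
  refine ⟨T, hpos, ?_, ?_⟩
  · apply tendsto_atTop_mono (fun n => (hT1 n).le)
    exact tendsto_atTop_add_const_right _ _ tendsto_natCast_atTop_atTop
  · apply squeeze_zero (fun n => mul_nonneg (hpos n).le (hq _)) (fun n => (hT2 n).le)
    exact tendsto_one_div_add_atTop_nhds_zero_nat

theorem fc : T_fc := by
  intro x ell s s1 h
  obtain ⟨hc, hM, hV, h0, hcont, hder, hsm, hpos, hlt, hlim⟩ := fa x ell s s1 h
  obtain ⟨b1, b2, b3, b4, b5⟩ := fb x ell s s1 h
  have hcs : ContinuousOn s (Ioi 0) := hc.mono Ioi_subset_Ici_self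
  have hcs1 : ContinuousOn s1 (Ioi 0) := h.cont1.mono Ioi_subset_Ici_self
  have hsum : IntegrableOn (fun t => s t ^ 2 + s1 t ^ 2) (Ioi 0) := h.int0.add h.int1
  have hd0 : ∀ t ∈ Ioi (0 : ℝ), HasDerivAt (fun t => s t ^ 2) (2 * s t * s1 t) t := by
    intro t ht
    refine HasDerivAt.congr_deriv ((h.der t ht).pow 2) ?_
    norm_num
  have hi0 : IntegrableOn (fun t => 2 * s t * s1 t) (Ioi 0) := by
    apply Integrable.mono' hsum
    · exact ((continuousOn_const.mul hcs).mul hcs1).aestronglyMeasurable measurableSet_Ioi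
    · refine Filter.Eventually.of_forall (fun t => ?_)
      rw [Real.norm_eq_abs, abs_le]
      constructor <;> nlinarith [sq_nonneg (s t - s1 t), sq_nonneg (s t + s1 t)]
  have hs : Tendsto s atTop (𝓝 0) :=
    tendsto_zero_of_sq (tendsto_zero_of_hasDerivAt_of_integrableOn_Ioi hd0 hi0 h.int0)
  have hphi : ContinuousOn (phi x s) (Ioi 0) := fun t ht =>
    (b2 t ht).continuousAt.continuousWithinAt
  have hd1 : ∀ t ∈ Ioi (1 : ℝ), HasDerivAt (fun t => s1 t ^ 2)
      (2 * s1 t * ((ell - phi x s t) * s t)) t := by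
    intro t ht
    have ht' : (0 : ℝ) < t := lt_trans one_pos ht
    refine HasDerivAt.congr_deriv ((h.der1 t ht').pow 2) ?_
    norm_num
  have hsub : Ioi (1 : ℝ) ⊆ Ioi 0 := Ioi_subset_Ioi zero_le_one
  have hi1 : IntegrableOn (fun t => 2 * s1 t * ((ell - phi x s t) * s t)) (Ioi 1) := by
    apply Integrable.mono' ((hsum.mono_set hsub).const_mul (ell + (1 + Mf s)))
    · exact ((continuousOn_const.mul hcs1).mul ((continuousOn_const.sub hphi).mul
        hcs)).mono hsub |>.aestronglyMeasurable measurableSet_Ioi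
    · rw [ae_restrict_iff' measurableSet_Ioi]
      refine Filter.Eventually.of_forall (fun t ht => ?_)
      have ht1 : (1 : ℝ) < t := ht
      have ht' : (0 : ℝ) < t := by linarith
      have hb := b3 t ht'
      have hx := h.x0
      have hl := h.l0
      have hb2 : (1 + Mf s) / (x + t) ≤ 1 + Mf s := by
        apply div_le_self (by linarith)
        linarith
      have hb3 : |ell - phi x s t| ≤ ell + (1 + Mf s) := by
        rw [abs_le] at hb ⊢
        constructor <;> linarith
      rw [Real.norm_eq_abs]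
      calc |2 * s1 t * ((ell - phi x s t) * s t)| = |ell - phi x s t| * |2 * (s t * s1 t)| := by
            rw [← abs_mul]; ring_nf
        _ ≤ (ell + (1 + Mf s)) * (s t ^ 2 + s1 t ^ 2) := by
            apply mul_le_mul hb3 _ (abs_nonneg _) (by linarith)
            rw [abs_le]
            constructor <;> nlinarith [sq_nonneg (s t - s1 t), sq_nonneg (s t + s1 t)]
  have hs1 : Tendsto s1 atTop (𝓝 0) :=
    tendsto_zero_of_sq (tendsto_zero_of_hasDerivAt_of_integrableOn_Ioi hd1 hi1
      (h.int1.mono_set hsub))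
  refine ⟨hs, hs1, ?_⟩
  exact exists_seq (q := fun t => s t ^ 2 + s1 t ^ 2) (fun t => by positivity)
    (hsum.mono_set hsub)

end Pool.Agent.H38.HM
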