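import Pool.Agent.H99.HM.Targets

/-!
Mollification on `ℝ³` and its convergence in `L²` (ported from the Hartogs files).
-/

set_option autoImplicit false
set_option linter.unusedSectionVars false

open MeasureTheory Set Filter Topology
open scoped ContDiff ENNReal Convolution
open Pool.Agent.H99.HM

namespace Pool.Agent.H38.HM

variable {G : Type*} [NormedAddCommGroup G] [NormedSpace ℝ G] [CompleteSpace G]

/-- Cauchy-Schwarz for weighted lower integrals -/
theorem cs_lintegral {α : Type*} [MeasurableSpace α] {μ : Measure α} {w u : α → ℝ≥0∞}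
    (hw : AEMeasurable w μ) (hu : AEMeasurable u μ) :
    (∫⁻ x, w x * u x ∂μ) ^ 2 ≤ (∫⁻ x, w x ∂μ) * ∫⁻ x, w x * u x ^ 2 ∂μ := by
  have hc : Real.HolderConjugate 2 2 := Real.HolderConjugate.two_two
  have h := ENNReal.lintegral_mul_le_Lp_mul_Lq μ hc
    (f := fun x => w x ^ (1 / 2 : ℝ)) (g := fun x => w x ^ (1 / 2 : ℝ) * u x)
    (hw.pow_const _) ((hw.pow_const _).mul hu)
  have e1 : ∀ x, (w x ^ (1 / 2 : ℝ)) * (w x ^ (1 / 2 : ℝ) * u x) = w x * u x := by
    intro x
    rw [← mul_assoc, ← ENNReal.rpow_add_of_nonneg _ _ (by norm_num) (by norm_num)]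
    norm_num
  have e2 : ∀ x, (w x ^ (1 / 2 : ℝ)) ^ (2 : ℝ) = w x := by
    intro x
    rw [← ENNReal.rpow_mul]
    norm_num
  have e3 : ∀ x, (w x ^ (1 / 2 : ℝ) * u x) ^ (2 : ℝ) = w x * u x ^ 2 := by
    intro x
    rw [ENNReal.mul_rpow_of_nonneg _ _ (by norm_num), e2]
    norm_cast
  simp only [Pi.mul_apply, e1, e2, e3] at h
  calc (∫⁻ x, w x * u x ∂μ) ^ 2
      ≤ ((∫⁻ x, w x ∂μ) ^ (1 / 2 : ℝ) * (∫⁻ x, w x * u x ^ 2 ∂μ) ^ (1 / 2 : ℝ)) ^ 2 := by
        gcongr
    _ = (∫⁻ x, w x ∂μ) * ∫⁻ x, w x * u x ^ 2 ∂μ := by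
        rw [mul_pow, ← ENNReal.rpow_natCast, ← ENNReal.rpow_natCast, ← ENNReal.rpow_mul,
          ← ENNReal.rpow_mul]
        norm_num

theorem eL2 {α : Type*} [MeasurableSpace α] {μ : Measure α} {G : Type*} [NormedAddCommGroup G]
    (f : α → G) : eLpNorm f 2 μ ^ 2 = ∫⁻ x, ‖f x‖ₑ ^ 2 ∂μ := by
  have := eLpNorm_nnreal_pow_eq_lintegral (μ := μ) (f := f) (p := 2) (by norm_num)
  simpa using this

/-- mollification -/
noncomputable def mol {G : Type*} [NormedAddCommGroup G] [NormedSpace ℝ G]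
    (ρ : E3 → ℝ) (g : E3 → G) : E3 → G :=
  (ρ ⋆[ContinuousLinearMap.lsmul ℝ ℝ, volume] g : E3 → G)

theorem mol_eq {G : Type*} [NormedAddCommGroup G] [NormedSpace ℝ G]
    (ρ : E3 → ℝ) (g : E3 → G) (x : E3) : mol ρ g x = ∫ t, ρ (x - t) • g t :=
  convolution_lsmul_swap

theorem contDiff_mol {ρ : E3 → ℝ} (hρ : ContDiff ℝ ∞ ρ) (hc : HasCompactSupport ρ)
    {g : E3 → G} (hg : LocallyIntegrable g) : ContDiff ℝ ∞ (mol ρ g) :=
  hc.contDiff_convolution_left _ hρ hg

theorem fderiv_mol {ρ : E3 → ℝ} (hρ : ContDiff ℝ ∞ ρ) (hc : HasCompactSupport ρ)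
    {g : E3 → G} (hg : LocallyIntegrable g) (x v : E3) :
    fderiv ℝ (mol ρ g) x v = ∫ t, (fderiv ℝ ρ (x - t) v) • g t := by
  have h1 : HasFDerivAt (mol ρ g)
      ((fderiv ℝ ρ ⋆[(ContinuousLinearMap.lsmul ℝ ℝ).precompL (E3), volume] g) x) x :=
    hc.hasFDerivAt_convolution_left _ (hρ.of_le (by simp)) hg x
  rw [h1.fderiv, convolution_eq_swap]
  have hI : Integrable (fun t => (((ContinuousLinearMap.lsmul ℝ ℝ).precompL (E3))
      (fderiv ℝ ρ (x - t))) (g t)) := by
    have := (hc.fderiv (𝕜 := ℝ)).convolutionExists_left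
      ((ContinuousLinearMap.lsmul ℝ ℝ).precompL (E3))
      (hρ.continuous_fderiv (by simp)) hg x
    exact (convolutionExistsAt_iff_integrable_swap).1 this
  rw [ContinuousLinearMap.integral_apply hI]
  rfl

theorem approx_principle {ι : Type*} {l : Filter ι} (T : ι → (E3 → G) → E3 → G) (C : ℝ≥0∞)
    (hC : C ≠ ⊤)
    (hmeas : ∀ i u, MemLp u 2 (volume : Measure (E3)) → AEStronglyMeasurable (T i u) volume)
    (hlin : ∀ᶠ i in l, ∀ u v, MemLp u 2 (volume : Measure (E3)) →
      MemLp v 2 (volume : Measure (E3)) →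
      eLpNorm (fun x => T i u x - T i v x) 2 volume ≤ C * eLpNorm (fun x => u x - v x) 2 volume)
    (hdense : ∀ φ : E3 → G, Continuous φ → HasCompactSupport φ →
      Tendsto (fun i => eLpNorm (fun x => T i φ x - φ x) 2 volume) l (𝓝 0))
    {u : E3 → G} (hu : MemLp u 2 volume) :
    Tendsto (fun i => eLpNorm (fun x => T i u x - u x) 2 volume) l (𝓝 0) := by
  rw [ENNReal.tendsto_nhds_zero]
  intro ε hε
  have hε2 : 0 < ε / 2 := ENNReal.half_pos hε.ne'
  obtain ⟨δ, hδ0, hδ⟩ : ∃ δ : ℝ≥0∞, δ ≠ 0 ∧ (C + 1) * δ ≤ ε / 2 := by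
    refine ⟨ε / 2 / (C + 1), ?_, ?_⟩
    · exact (ENNReal.div_pos hε2.ne' (by simp [hC])).ne'
    · rw [ENNReal.mul_div_cancel (by simp) (by simp [hC])]
  obtain ⟨v, hvc, hv1, hv2, hv3⟩ := hu.exists_hasCompactSupport_eLpNorm_sub_le (by norm_num) hδ0
  have hd := (ENNReal.tendsto_nhds_zero.1 (hdense v hv2 hvc)) (ε / 2) hε2
  filter_upwards [hlin, hd] with i h1 h2
  have m1 : AEStronglyMeasurable (fun x => T i u x - T i v x) volume :=
    (hmeas i u hu).sub (hmeas i v hv3)
  have m2 : AEStronglyMeasurable (fun x => T i v x - v x) volume :=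
    (hmeas i v hv3).sub hv3.1
  have m3 : AEStronglyMeasurable (fun x => v x - u x) volume := hv3.1.sub hu.1
  have e : (fun x => T i u x - u x) =
      (fun x => T i u x - T i v x) + ((fun x => T i v x - v x) + (fun x => v x - u x)) := by
    ext x
    simp
  have h3 : eLpNorm (fun x => u x - v x) 2 volume ≤ δ := hv1
  have h4 : eLpNorm (fun x => v x - u x) 2 volume ≤ δ := by
    have := eLpNorm_sub_comm u v 2 (volume : Measure (E3))
    exact this ▸ hv1
  calc eLpNorm (fun x => T i u x - u x) 2 volume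
      ≤ eLpNorm (fun x => T i u x - T i v x) 2 volume +
        (eLpNorm (fun x => T i v x - v x) 2 volume + eLpNorm (fun x => v x - u x) 2 volume) := by
        rw [e]
        refine (eLpNorm_add_le m1 (m2.add m3) (by norm_num)).trans ?_
        gcongr
        exact eLpNorm_add_le m2 m3 (by norm_num)
    _ ≤ C * δ + (ε / 2 + δ) := by
        gcongr
        exact (h1 u v hu hv3).trans (by gcongr)
    _ = (C + 1) * δ + ε / 2 := by ring
    _ ≤ ε / 2 + ε / 2 := by gcongr
    _ = ε := ENNReal.add_halves ε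

theorem eL2_mol_le {ρ : E3 → ℝ} (hρ : Continuous ρ) (hi : Integrable ρ) (h0 : ∀ x, 0 ≤ ρ x)
    (h1 : ∫ x, ρ x = 1) {u : E3 → G} (hu : AEStronglyMeasurable u volume) :
    eLpNorm (mol ρ u) 2 volume ≤ eLpNorm u 2 volume := by
  have hρ1 : ∫⁻ x, ‖ρ x‖ₑ = 1 := by
    rw [← ofReal_integral_norm_eq_lintegral_enorm hi]
    have : ∀ x, ‖ρ x‖ = ρ x := fun x => Real.norm_of_nonneg (h0 x)
    simp only [this, h1, ENNReal.ofReal_one]
  have hmeasρ : ∀ x : E3, Measurable (fun t => ‖ρ (x - t)‖ₑ) := by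
    intro x
    exact (hρ.comp (continuous_const.sub continuous_id)).measurable.enorm
  have key : ∀ x, ‖mol ρ u x‖ₑ ^ 2 ≤ ∫⁻ t, ‖ρ (x - t)‖ₑ * ‖u t‖ₑ ^ 2 := by
    intro x
    have a1 : ‖mol ρ u x‖ₑ ≤ ∫⁻ t, ‖ρ (x - t)‖ₑ * ‖u t‖ₑ := by
      rw [mol_eq]
      refine (enorm_integral_le_lintegral_enorm _).trans (lintegral_mono fun t => ?_)
      rw [enorm_smul]
    have a2 : ∫⁻ t, ‖ρ (x - t)‖ₑ = 1 := by
      rw [← hρ1]
      exact lintegral_sub_left_eq_self (fun t => ‖ρ t‖ₑ) x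
    calc ‖mol ρ u x‖ₑ ^ 2 ≤ (∫⁻ t, ‖ρ (x - t)‖ₑ * ‖u t‖ₑ) ^ 2 := by gcongr
      _ ≤ (∫⁻ t, ‖ρ (x - t)‖ₑ) * ∫⁻ t, ‖ρ (x - t)‖ₑ * ‖u t‖ₑ ^ 2 :=
          cs_lintegral (hmeasρ x).aemeasurable hu.enorm
      _ = ∫⁻ t, ‖ρ (x - t)‖ₑ * ‖u t‖ₑ ^ 2 := by rw [a2, one_mul]
  have fin : eLpNorm (mol ρ u) 2 volume ^ 2 ≤ eLpNorm u 2 volume ^ 2 := by
    rw [eL2, eL2]
    calc ∫⁻ x, ‖mol ρ u x‖ₑ ^ 2 ≤ ∫⁻ x, ∫⁻ t, ‖ρ (x - t)‖ₑ * ‖u t‖ₑ ^ 2 := lintegral_mono key
      _ = ∫⁻ t, ∫⁻ x, ‖ρ (x - t)‖ₑ * ‖u t‖ₑ ^ 2 := by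
          have m1 : AEMeasurable (fun p : E3 × E3 => ‖ρ (p.1 - p.2)‖ₑ)
              ((volume : Measure (E3)).prod (volume : Measure (E3))) :=
            ((hρ.comp (continuous_fst.sub continuous_snd)).measurable.enorm).aemeasurable
          have m2 : AEMeasurable (fun p : E3 × E3 => ‖u p.2‖ₑ ^ 2)
              ((volume : Measure (E3)).prod (volume : Measure (E3))) :=
            (hu.comp_snd.enorm).pow_const _
          exact lintegral_lintegral_swap (m1.mul m2)
      _ = ∫⁻ t, ‖u t‖ₑ ^ 2 := by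
          refine lintegral_congr fun t => ?_
          rw [lintegral_mul_const]
          · have : ∫⁻ x, ‖ρ (x - t)‖ₑ = 1 := by
              rw [← hρ1]
              exact lintegral_sub_right_eq_self (fun x => ‖ρ x‖ₑ) t
            rw [this, one_mul]
          · exact (hρ.comp (continuous_id.sub continuous_const)).measurable.enorm
  exact (ENNReal.pow_le_pow_left_iff two_ne_zero).1 fin

/-- a standard sequence of bump functions -/
noncomputable def bmp (m : ℕ) : ContDiffBump (0 : E3) where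
  rIn := 1 / (2 * ((m : ℝ) + 1))
  rOut := 1 / ((m : ℝ) + 1)
  rIn_pos := by positivity
  rIn_lt_rOut := by
    have : (0 : ℝ) < (m : ℝ) + 1 := by positivity
    rw [div_lt_div_iff₀ (by positivity) this]
    linarith

/-- the mollifiers -/
noncomputable def rh (m : ℕ) : E3 → ℝ := (bmp m).normed volume

theorem rh_smooth (m : ℕ) : ContDiff ℝ ∞ (rh m) := (bmp m).contDiff_normed

theorem rh_cpt (m : ℕ) : HasCompactSupport (rh m) := (bmp m).hasCompactSupport_normed

theorem rh_tsupport (m : ℕ) : tsupport (rh m) = Metric.closedBall 0 (1 / ((m : ℝ) + 1)) :=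
  (bmp m).tsupport_normed_eq

theorem mol_int {m : ℕ} {w : E3 → G} (hw : LocallyIntegrable w volume) (x : E3) :
    Integrable (fun t => rh m (x - t) • w t) := by
  refine hw.integrable_smul_left_of_hasCompactSupport ?_ ?_
  · exact (rh_smooth m).continuous.comp (continuous_const.sub continuous_id)
  · exact (rh_cpt m).comp_homeomorph (Homeomorph.subLeft x)

theorem aesm_mol {u : E3 → G} (hu : LocallyIntegrable u volume) (m : ℕ) :
    AEStronglyMeasurable (mol (rh m) u) volume :=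
  (contDiff_mol (rh_smooth m) (rh_cpt m) hu).continuous.aestronglyMeasurable

theorem mol_sub {u v : E3 → G} (hu : LocallyIntegrable u volume)
    (hv : LocallyIntegrable v volume) (m : ℕ) (x : E3) :
    mol (rh m) u x - mol (rh m) v x = mol (rh m) (fun x => u x - v x) x := by
  rw [mol_eq, mol_eq, mol_eq, ← integral_sub (mol_int hu x) (mol_int hv x)]
  simp only [smul_sub]

theorem memLp_mol {u : E3 → G} (hu : MemLp u 2 volume) (m : ℕ) :
    MemLp (mol (rh m) u) 2 volume :=
  ⟨aesm_mol (hu.locallyIntegrable (by norm_num)) m,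
    (eL2_mol_le (rh_smooth m).continuous ((bmp m).integrable_normed)
      (bmp m).nonneg_normed (bmp m).integral_normed hu.1).trans_lt hu.2⟩

/-- the support of a mollification -/
theorem mol_eq_zero {m : ℕ} {K : Set (E3)} {u : E3 → G} (hu : ∀ x, x ∉ K → u x = 0)
    {x : E3} (hx : x ∉ Metric.cthickening (1 / ((m : ℝ) + 1)) K) : mol (rh m) u x = 0 := by
  rw [mol_eq]
  refine integral_eq_zero_of_ae (Eventually.of_forall fun t => ?_)
  by_cases h1 : rh m (x - t) = 0
  · simp [h1]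
  · have h2 : x - t ∈ tsupport (rh m) := subset_tsupport _ h1
    rw [rh_tsupport, mem_closedBall_zero_iff] at h2
    have h3 : u t = 0 := by
      apply hu
      intro ht
      apply hx
      refine Metric.mem_cthickening_of_dist_le x t _ K ht ?_
      rwa [dist_eq_norm]
    simp [h3]

theorem mol_tendsto {u : E3 → G} (hu : MemLp u 2 volume) :
    Tendsto (fun m => eLpNorm (fun x => mol (rh m) u x - u x) 2 volume) atTop (𝓝 0) := by
  refine approx_principle (fun m u => mol (rh m) u) 1 (by simp) ?_ ?_ ?_ hu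
  · intro m u hu
    exact aesm_mol (hu.locallyIntegrable (by norm_num)) m
  · refine Eventually.of_forall fun m u v hu hv => ?_
    have hu' := hu.locallyIntegrable (by norm_num)
    have hv' := hv.locallyIntegrable (by norm_num)
    simp only [mol_sub hu' hv' m, one_mul]
    exact eL2_mol_le (rh_smooth m).continuous ((bmp m).integrable_normed)
      (bmp m).nonneg_normed (bmp m).integral_normed (hu.1.sub hv.1)
  · intro φ hφ hφc
    obtain ⟨R, hR⟩ := (hφc.isCompact.isBounded).subset_closedBall (0 : E3)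
    set B : Set (E3) := Metric.closedBall 0 (R + 1) with hB
    rw [ENNReal.tendsto_nhds_zero]
    intro ε hε
    have hBfin : volume B ≠ ⊤ := (isCompact_closedBall _ _).measure_ne_top
    -- choose ε'
    obtain ⟨ε', hε'0, hε'⟩ : ∃ ε' : ℝ, 0 < ε' ∧
        ENNReal.ofReal ε' * volume B ^ (1 / (2 : ℝ≥0∞).toReal) ≤ ε := by
      have h1 : Tendsto (fun t : ℝ => ENNReal.ofReal t * volume B ^ (1 / (2 : ℝ≥0∞).toReal))
          (𝓝 0) (𝓝 (ENNReal.ofReal 0 * volume B ^ (1 / (2 : ℝ≥0∞).toReal))) := by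
        refine ENNReal.Tendsto.mul_const (ENNReal.tendsto_ofReal tendsto_id) (Or.inr ?_)
        exact (ENNReal.rpow_lt_top_of_nonneg (by positivity) hBfin).ne
      rw [ENNReal.ofReal_zero, zero_mul] at h1
      have h2 := (ENNReal.tendsto_nhds_zero.1 h1) ε hε
      have h3 : ∀ᶠ t in 𝓝[>] (0 : ℝ),
          ENNReal.ofReal t * volume B ^ (1 / (2 : ℝ≥0∞).toReal) ≤ ε :=
        h2.filter_mono nhdsWithin_le_nhds
      obtain ⟨t, ht1, ht2⟩ := (h3.and self_mem_nhdsWithin).exists
      exact ⟨t, ht2, ht1⟩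
    have huc : UniformContinuous φ := hφc.uniformContinuous_of_continuous hφ
    obtain ⟨δ, hδ0, hδ⟩ := Metric.uniformContinuous_iff.1 huc ε' hε'0
    have hlim : Tendsto (fun m : ℕ => 1 / ((m : ℝ) + 1)) atTop (𝓝 0) :=
      tendsto_one_div_add_atTop_nhds_zero_nat
    filter_upwards [hlim.eventually (gt_mem_nhds hδ0)] with m hm
    have hd : ∀ x, dist (mol (rh m) φ x) (φ x) ≤ ε' := by
      intro x
      refine ContDiffBump.dist_normed_convolution_le hφ.aestronglyMeasurable ?_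
      intro y hy
      exact (hδ (lt_trans hy hm)).le
    have hs1 : Function.support φ ⊆ B := by
      refine (subset_tsupport φ).trans (hR.trans ?_)
      exact Metric.closedBall_subset_closedBall (by linarith)
    have hs2 : Function.support (mol (rh m) φ) ⊆ B := by
      intro x hx
      by_contra hxB
      apply hx
      rw [mol_eq]
      refine integral_eq_zero_of_ae (Eventually.of_forall fun t => ?_)
      by_cases h1 : rh m (x - t) = 0
      · simp [h1]
      · have h2 : x - t ∈ tsupport (rh m) := subset_tsupport _ h1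
        rw [rh_tsupport, mem_closedBall_zero_iff] at h2
        have h3 : φ t = 0 := by
          by_contra h4
          have h5 : t ∈ Metric.closedBall (0 : E3) R := hR (subset_tsupport _ h4)
          rw [mem_closedBall_zero_iff] at h5
          apply hxB
          rw [hB, mem_closedBall_zero_iff]
          have h6 : ‖x‖ ≤ ‖x - t‖ + ‖t‖ := by simpa using norm_add_le (x - t) t
          have h7 : 1 / ((m : ℝ) + 1) ≤ 1 := by
            rw [div_le_one (by positivity)]
            linarith [Nat.cast_nonneg (α := ℝ) m]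
          linarith
        simp [h3]
    have := eLpNorm_sub_le_of_dist_bdd (volume : Measure (E3)) (p := 2) (by norm_num)
      (Metric.isClosed_closedBall.measurableSet) hε'0.le hd hs2 hs1
    exact this.trans hε'

end Pool.Agent.H38.HM
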